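import Pool.Agent.Work.MP_f0c219_gt.Cat0

/-!
# Block A: obstruction for groups acting on CAT(0) spaces
-/

open Set Topology Filter
open scoped commutatorElement

namespace Pool.Agent.Work.MP_f0c219_gt.Obstruct

section Metric

variable {X : Type*} [MetricSpace X]

/-- The quadrilateral inequality of Berg and Nikolaev. -/
theorem quad (hX : IsCAT0 X) (a b p p' : X) :
    dist a p' ^ 2 + dist b p ^ 2 ≤ dist a p ^ 2 + dist b p' ^ 2 + 2 * dist a b * dist p p' := by
  rcases (dist_nonneg : 0 ≤ dist a b).eq_or_lt with h0 | h0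
  · have : a = b := dist_eq_zero.1 h0.symm
    subst this
    simp
    linarith
  rcases (dist_nonneg : 0 ≤ dist p p').eq_or_lt with h1 | h1
  · have : p = p' := dist_eq_zero.1 h1.symm
    subst this
    simp
  set u := dist a b with hu
  set v := dist p p' with hv
  have huv : 0 < u + v := by positivity
  obtain ⟨γ, hγ⟩ := hX.1 a p'
  have ht : u / (u + v) ∈ Icc (0 : ℝ) 1 := ⟨by positivity, by rw [div_le_one huv]; linarith⟩
  have h2 := hX.inequality hγ b ht
  have h3 := hX.inequality hγ p ht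
  have h4 : dist b p ≤ dist b (γ (u / (u + v))) + dist p (γ (u / (u + v))) := by
    rw [dist_comm p]; exact dist_triangle _ _ _
  set r := dist b (γ (u / (u + v)))
  set s := dist p (γ (u / (u + v)))
  rw [dist_comm b a, ← hu] at h2
  rw [← hv, dist_comm p a] at h3
  have h5 : dist b p ^ 2 ≤ (u + v) / u * r ^ 2 + (u + v) / v * s ^ 2 := by
    have h6 : dist b p ^ 2 ≤ (r + s) ^ 2 := by
      have := @dist_nonneg _ _ b p
      nlinarith
    refine h6.trans ?_
    rw [div_mul_eq_mul_div, div_mul_eq_mul_div, div_add_div _ _ h0.ne' h1.ne', le_div_iff₀ (by positivity)]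
    nlinarith [sq_nonneg (r * v - s * u)]
  have h7 : (u + v) / u * r ^ 2 ≤ (u + v) / u * ((1 - u / (u + v)) * u ^ 2 +
      u / (u + v) * dist b p' ^ 2 - u / (u + v) * (1 - u / (u + v)) * dist a p' ^ 2) :=
    mul_le_mul_of_nonneg_left h2 (by positivity)
  have h8 : (u + v) / v * s ^ 2 ≤ (u + v) / v * ((1 - u / (u + v)) * dist a p ^ 2 +
      u / (u + v) * v ^ 2 - u / (u + v) * (1 - u / (u + v)) * dist a p' ^ 2) :=
    mul_le_mul_of_nonneg_left h3 (by positivity)
  have h9 : (u + v) / u * ((1 - u / (u + v)) * u ^ 2 +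
      u / (u + v) * dist b p' ^ 2 - u / (u + v) * (1 - u / (u + v)) * dist a p' ^ 2) =
      u * v + dist b p' ^ 2 - v / (u + v) * dist a p' ^ 2 := by
    field_simp
    ring
  have h10 : (u + v) / v * ((1 - u / (u + v)) * dist a p ^ 2 +
      u / (u + v) * v ^ 2 - u / (u + v) * (1 - u / (u + v)) * dist a p' ^ 2) =
      dist a p ^ 2 + u * v - u / (u + v) * dist a p' ^ 2 := by
    field_simp
    ring
  have h11 : v / (u + v) * dist a p' ^ 2 + u / (u + v) * dist a p' ^ 2 = dist a p' ^ 2 := by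
    field_simp
    ring
  linarith

end Metric

section Action

variable {X : Type*} [MetricSpace X] {G : Type*} [Group G] [MulAction G X]

/-- An isometric action. -/
def Iso (G X : Type*) [MetricSpace X] [Group G] [MulAction G X] : Prop :=
  ∀ (g : G) (x y : X), dist (g • x) (g • y) = dist x y

/-- `d(x, g^(2^k) x)^2 / 4^k` -/
noncomputable def qk (x : X) (g : G) (k : ℕ) : ℝ := dist x (g ^ (2 ^ k) • x) ^ 2 / 4 ^ k

/-- the square of the stable norm -/
noncomputable def Q (x : X) (g : G) : ℝ := ⨅ k, qk x g k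

theorem qk_nonneg (x : X) (g : G) (k : ℕ) : 0 ≤ qk x g k := by unfold qk; positivity

theorem dist_two (h : Iso G X) (x : X) (g : G) : dist x (g • g • x) ≤ 2 * dist x (g • x) := by
  have := dist_triangle x (g • x) (g • g • x)
  rw [h g] at this
  linarith

theorem qk_antitone (h : Iso G X) (x : X) (g : G) : Antitone (qk x g) := by
  refine antitone_nat_of_succ_le fun k => ?_
  unfold qk
  have h1 : g ^ (2 ^ (k + 1)) • x = g ^ (2 ^ k) • g ^ (2 ^ k) • x := by
    rw [smul_smul, ← pow_add, pow_succ, mul_two]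
  rw [h1]
  have h2 := dist_two h x (g ^ (2 ^ k))
  have h3 : dist x (g ^ (2 ^ k) • g ^ (2 ^ k) • x) ^ 2 ≤ 4 * dist x (g ^ (2 ^ k) • x) ^ 2 := by
    have := @dist_nonneg _ _ x (g ^ (2 ^ k) • g ^ (2 ^ k) • x)
    nlinarith
  rw [div_le_div_iff₀ (by positivity) (by positivity), pow_succ (4 : ℝ) k]
  nlinarith [pow_pos (show (0 : ℝ) < 4 by norm_num) k]

theorem tendsto_Q (h : Iso G X) (x : X) (g : G) : Tendsto (qk x g) atTop (𝓝 (Q x g)) :=
  tendsto_atTop_ciInf (qk_antitone h x g) ⟨0, by rintro _ ⟨k, rfl⟩; exact qk_nonneg x g k⟩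

theorem Q_nonneg (x : X) (g : G) : 0 ≤ Q x g := le_ciInf fun k => qk_nonneg x g k

theorem Q_sq (h : Iso G X) (x : X) (g : G) : Q x (g ^ 2) = 4 * Q x g := by
  have h1 : ∀ k, qk x (g ^ 2) k = 4 * qk x g (k + 1) := by
    intro k
    unfold qk
    rw [← pow_mul, ← pow_succ', pow_succ 4]
    field_simp
  have h2 := tendsto_Q h x (g ^ 2)
  have h3 : Tendsto (fun k => 4 * qk x g (k + 1)) atTop (𝓝 (4 * Q x g)) :=
    ((tendsto_add_atTop_iff_nat 1).2 (tendsto_Q h x g)).const_mul 4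
  exact tendsto_nhds_unique (h2.congr h1) h3

theorem dist_inv (h : Iso G X) (x : X) (g : G) : dist x (g⁻¹ • x) = dist x (g • x) := by
  rw [← h g x (g⁻¹ • x), smul_inv_smul, dist_comm]

theorem Q_inv (h : Iso G X) (x : X) (g : G) : Q x g⁻¹ = Q x g := by
  unfold Q
  congr 1
  ext k
  unfold qk
  rw [inv_pow, dist_inv h]

theorem Q_one (x : X) : Q x (1 : G) = 0 := by
  unfold Q qk
  simp

theorem par_le (hX : IsCAT0 X) (h : Iso G X) (x : X) {f g : G} (hfg : Commute f g) :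
    Q x (f * g) + Q x (f⁻¹ * g) ≤ 2 * Q x f + 2 * Q x g := by
  have h1 : ∀ k, qk x (f * g) k + qk x (f⁻¹ * g) k ≤ 2 * qk x f k + 2 * qk x g k := by
    intro k
    unfold qk
    rw [hfg.mul_pow, hfg.inv_left.mul_pow, inv_pow]
    set a := f ^ 2 ^ k
    set b := g ^ 2 ^ k
    have hab : Commute a b := hfg.pow_pow _ _
    have h2 := quad hX x (a • x) (b • x) ((a * b) • x)
    have h3 : dist (a • x) (b • x) = dist x ((a⁻¹ * b) • x) := by
      rw [← h a x, smul_smul, mul_inv_cancel_left]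
    have h4 : dist (a • x) ((a * b) • x) = dist x (b • x) := by
      rw [mul_smul, h]
    have h5 : dist (b • x) ((a * b) • x) = dist x (a • x) := by
      rw [hab.eq, mul_smul, h]
    rw [h3, h4, h5] at h2
    rw [← add_div, ← mul_div_assoc, ← mul_div_assoc, ← add_div]
    refine div_le_div_of_nonneg_right ?_ (by positivity)
    nlinarith
  have h2 := (tendsto_Q h x (f * g)).add (tendsto_Q h x (f⁻¹ * g))
  have h3 := ((tendsto_Q h x f).const_mul 2).add ((tendsto_Q h x g).const_mul 2)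
  exact le_of_tendsto_of_tendsto' h2 h3 h1

theorem par (hX : IsCAT0 X) (h : Iso G X) (x : X) {f g : G} (hfg : Commute f g) :
    Q x (f * g) + Q x (f⁻¹ * g) = 2 * Q x f + 2 * Q x g := by
  refine le_antisymm (par_le hX h x hfg) ?_
  have hc : Commute (f * g) (f⁻¹ * g) := by
    refine Commute.mul_left ?_ ?_
    · exact ((Commute.refl f).inv_right).mul_right hfg
    · exact (hfg.symm.inv_right).mul_right (Commute.refl g)
  have h1 := par_le hX h x hc
  have e1 : f * g * (f⁻¹ * g) = g ^ 2 := by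
    rw [hfg.eq, mul_assoc, mul_inv_cancel_left, pow_two]
  have e2 : (f * g)⁻¹ * (f⁻¹ * g) = (f ^ 2)⁻¹ := by
    rw [mul_inv_rev, mul_assoc, pow_two, mul_inv_rev]
    have : g⁻¹ * (f⁻¹ * (f⁻¹ * g)) = f⁻¹ * f⁻¹ * (g⁻¹ * g) := by
      have h1 : g⁻¹ * f⁻¹ = f⁻¹ * g⁻¹ := (hfg.inv_inv).symm.eq
      rw [← mul_assoc, h1, mul_assoc, ← mul_assoc g⁻¹, h1]
      simp [mul_assoc]
    rw [this]; simp
  rw [e1, e2, Q_inv h, Q_sq h, Q_sq h] at h1
  linarith

/-- the polarisation (twice the inner product) -/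
noncomputable def B (x : X) (g f : G) : ℝ := Q x (g * f) - Q x g - Q x f

theorem B_sq (hX : IsCAT0 X) (h : Iso G X) (x : X) {f g : G} (hfg : Commute f g) :
    B x g (f ^ 2) = 2 * B x g f := by
  unfold B
  have hc : Commute f (g * f) := hfg.mul_right (Commute.refl f)
  have h1 := par hX h x hc
  have e1 : f * (g * f) = g * f ^ 2 := by rw [← mul_assoc, hfg.eq, mul_assoc, pow_two]
  have e2 : f⁻¹ * (g * f) = g := by rw [← hfg.eq, inv_mul_cancel_left]
  rw [e1, e2] at h1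
  rw [Q_sq h]
  linarith

theorem B_pow (hX : IsCAT0 X) (h : Iso G X) (x : X) {f g : G} (hfg : Commute f g) (j : ℕ) :
    B x g (f ^ 2 ^ j) = 2 ^ j * B x g f := by
  induction j with
  | zero => simp
  | succ j ih =>
    rw [pow_succ 2 j, pow_mul, B_sq hX h x (hfg.pow_left _), ih, pow_succ]
    ring

/-- `d(x, g f^(2^n) x)^2 - d(x, f^(2^n) x)^2` -/
noncomputable def E (x : X) (f g : G) (n : ℕ) : ℝ :=
  dist x ((g * f ^ n) • x) ^ 2 - dist x (f ^ n • x) ^ 2

theorem E_add (hX : IsCAT0 X) (h : Iso G X) (x : X) {f g k : G} (hk : Commute f k)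
    (n : ℕ) :
    |E x f (g * k) n - E x f g n - E x f k n| ≤ 2 * dist x (g • x) * dist x (k • x) := by
  unfold E
  set p := f ^ n • x
  have hkn : Commute (f ^ n) k := hk.pow_left n
  set p' := k • p with hp'
  have e1 : (g * k * f ^ n) • x = g • p' := by rw [mul_assoc, mul_smul, mul_smul]
  have e2 : (g * f ^ n) • x = g • p := by rw [mul_smul]
  have e3 : (k * f ^ n) • x = p' := by rw [mul_smul]
  rw [e1, e2, e3]
  have e4 : dist x (g • p') = dist (g⁻¹ • x) p' := by rw [← h g (g⁻¹ • x), smul_inv_smul]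
  have e5 : dist x (g • p) = dist (g⁻¹ • x) p := by rw [← h g (g⁻¹ • x), smul_inv_smul]
  have e6 : dist (g⁻¹ • x) x = dist x (g • x) := by rw [← h g (g⁻¹ • x), smul_inv_smul]
  have e7 : dist p p' = dist x (k • x) := by
    rw [hp', ← mul_smul, ← hkn.eq, mul_smul, h]
  rw [e4, e5]
  have q1 := quad hX (g⁻¹ • x) x p p'
  have q2 := quad hX (g⁻¹ • x) x p' p
  rw [e6, e7] at q1
  rw [e6, dist_comm p' p, e7] at q2
  rw [abs_le]
  constructor <;> linarith

theorem dist_pow_le (h : Iso G X) (x : X) (g : G) (n : ℕ) :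
    dist x (g ^ n • x) ≤ n * dist x (g • x) := by
  induction n with
  | zero => simp
  | succ n ih =>
    have h1 := dist_triangle x (g ^ n • x) (g ^ (n + 1) • x)
    have h2 : dist (g ^ n • x) (g ^ (n + 1) • x) = dist x (g • x) := by
      rw [pow_succ, mul_smul, h]
    rw [h2] at h1
    push_cast
    linarith

theorem E_pow (hX : IsCAT0 X) (h : Iso G X) (x : X) {f g : G} (hfg : Commute f g) (n m : ℕ) :
    |E x f (g ^ m) n - m * E x f g n| ≤ m ^ 2 * dist x (g • x) ^ 2 := by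
  induction m with
  | zero => simp [E]
  | succ m ih =>
    have h1 := E_add hX h x (g := g ^ m) hfg n
    rw [← pow_succ] at h1
    have h2 := dist_pow_le h x g m
    have h3 : 2 * dist x (g ^ m • x) * dist x (g • x) ≤ 2 * m * dist x (g • x) ^ 2 := by
      have := @dist_nonneg _ _ x (g • x)
      nlinarith
    rw [abs_le] at *
    push_cast
    have h4 := sq_nonneg (dist x (g • x))
    constructor <;> nlinarith

theorem tendsto_E (hX : IsCAT0 X) (h : Iso G X) (x : X) {f g : G} (hfg : Commute f g) :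
    Tendsto (fun n : ℕ => E x f g (2 ^ n) / 2 ^ n) atTop (𝓝 (B x g f)) := by
  set D := dist x (g • x) ^ 2 with hD
  have hD0 : 0 ≤ D := sq_nonneg _
  -- the comparison
  have key : ∀ j k : ℕ, |(qk x (g * f ^ 2 ^ j) k - qk x (f ^ 2 ^ j) k) / 2 ^ j -
      E x f g (2 ^ (k + j)) / 2 ^ (k + j)| ≤ D / 2 ^ j := by
    intro j k
    have h1 := E_pow hX h x hfg (2 ^ (k + j)) (2 ^ k)
    have e1 : E x f (g ^ 2 ^ k) (2 ^ (k + j)) =
        4 ^ k * (qk x (g * f ^ 2 ^ j) k - qk x (f ^ 2 ^ j) k) := by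
      unfold E qk
      have hc : Commute g (f ^ 2 ^ j) := (hfg.pow_left _).symm
      rw [hc.mul_pow, ← pow_mul, ← pow_add, add_comm j k]
      field_simp
    rw [e1] at h1
    have e2 : (qk x (g * f ^ 2 ^ j) k - qk x (f ^ 2 ^ j) k) / 2 ^ j -
      E x f g (2 ^ (k + j)) / 2 ^ (k + j) = (4 ^ k * (qk x (g * f ^ 2 ^ j) k - qk x (f ^ 2 ^ j) k) -
        ((2 ^ k : ℕ) : ℝ) * E x f g (2 ^ (k + j))) / (4 ^ k * 2 ^ j) := by
      have h4 : (4 : ℝ) ^ k = 2 ^ k * 2 ^ k := by
        rw [← mul_pow]; norm_num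
      generalize E x f g (2 ^ (k + j)) = e
      rw [pow_add, h4]
      push_cast
      field_simp
    rw [e2, abs_div, abs_of_pos (by positivity : (0 : ℝ) < 4 ^ k * 2 ^ j)]
    rw [div_le_div_iff₀ (by positivity) (by positivity)]
    have e3 : (((2 ^ k : ℕ) : ℝ)) ^ 2 = 4 ^ k := by
      push_cast
      rw [← pow_mul, mul_comm, pow_mul]; norm_num
    rw [e3, ← hD] at h1
    calc _ ≤ (4 ^ k * D) * 2 ^ j := mul_le_mul_of_nonneg_right h1 (by positivity)
      _ = _ := by ring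
  have hlim : ∀ j : ℕ, Tendsto (fun k => (qk x (g * f ^ 2 ^ j) k - qk x (f ^ 2 ^ j) k) / 2 ^ j) atTop
      (𝓝 (Q x g / 2 ^ j + B x g f)) := by
    intro j
    have h1 := ((tendsto_Q h x (g * f ^ 2 ^ j)).sub (tendsto_Q h x (f ^ 2 ^ j))).div_const (2 ^ j)
    have h2 : (Q x (g * f ^ 2 ^ j) - Q x (f ^ 2 ^ j)) / 2 ^ j = Q x g / 2 ^ j + B x g f := by
      have h3 := B_pow hX h x hfg j
      unfold B at h3 ⊢
      field_simp
      linarith
    rwa [h2] at h1
  rw [Metric.tendsto_atTop]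
  intro ε hε
  obtain ⟨j, hj⟩ : ∃ j : ℕ, (D + Q x g) / 2 ^ j < ε / 2 := by
    obtain ⟨j, hj⟩ := exists_pow_lt_of_lt_one
      (show 0 < ε / 2 / (D + Q x g + 1) by have := Q_nonneg x g; positivity) (show (1 / 2 : ℝ) < 1 by norm_num)
    refine ⟨j, ?_⟩
    have h0 := Q_nonneg x g
    rw [lt_div_iff₀ (by positivity)] at hj
    have h1 : (D + Q x g) / 2 ^ j = (1 / 2) ^ j * (D + Q x g) := by
      rw [one_div, inv_pow]; field_simp
    rw [h1]
    have h2 : (0 : ℝ) < (1 / 2) ^ j := by positivity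
    nlinarith
  obtain ⟨N, hN⟩ := (Metric.tendsto_atTop.1 (hlim j)) (ε / 2) (by positivity)
  refine ⟨N + j, fun n hn => ?_⟩
  obtain ⟨k, rfl⟩ : ∃ k, n = k + j := ⟨n - j, by omega⟩
  have h1 := hN k (by omega)
  have h2 := key j k
  rw [Real.dist_eq] at h1 ⊢
  rw [abs_le] at h2
  rw [abs_lt] at h1 ⊢
  have h3 : (D + Q x g) / 2 ^ j = D / 2 ^ j + Q x g / 2 ^ j := add_div _ _ _
  have h4 : 0 ≤ Q x g / 2 ^ j := div_nonneg (Q_nonneg x g) (by positivity)
  constructor <;> linarith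

theorem B_mul (hX : IsCAT0 X) (h : Iso G X) (x : X) {f g k : G} (hg : Commute f g)
    (hk : Commute f k) : B x (g * k) f = B x g f + B x k f := by
  have h1 := tendsto_E hX h x (hg.mul_right hk)
  have h2 := tendsto_E hX h x hg
  have h3 := tendsto_E hX h x hk
  have h4 := (h1.sub h2).sub h3
  have h5 : Tendsto (fun n : ℕ => E x f (g * k) (2 ^ n) / 2 ^ n - E x f g (2 ^ n) / 2 ^ n -
      E x f k (2 ^ n) / 2 ^ n) atTop (𝓝 0) := by
    have h6 : Tendsto (fun n : ℕ => (2 * dist x (g • x) * dist x (k • x)) * (1 / 2 : ℝ) ^ n) atTop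
        (𝓝 0) := by
      have := (tendsto_pow_atTop_nhds_zero_of_lt_one (show (0 : ℝ) ≤ 1 / 2 by norm_num)
        (by norm_num)).const_mul (2 * dist x (g • x) * dist x (k • x))
      simpa using this
    refine squeeze_zero_norm (fun n => ?_) h6
    have h7 := E_add hX h x (g := g) hk (2 ^ n)
    rw [← sub_div, ← sub_div, Real.norm_eq_abs, abs_div, abs_of_pos (by positivity : (0 : ℝ) < 2 ^ n),
      div_le_iff₀ (by positivity)]
    have h8 : (1 / 2 : ℝ) ^ n * 2 ^ n = 1 := by rw [← mul_pow]; norm_num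
    calc _ ≤ _ := h7
      _ = _ := by rw [mul_assoc (2 * dist x (g • x) * dist x (k • x)), h8, mul_one]
  have h9 := tendsto_nhds_unique h4 h5
  linarith

theorem B_one (x : X) (f : G) : B x 1 f = 0 := by
  unfold B
  rw [one_mul, Q_one]
  ring

theorem B_inv (hX : IsCAT0 X) (h : Iso G X) (x : X) {f g : G} (hg : Commute f g) :
    B x g⁻¹ f = - B x g f := by
  have h1 := B_mul hX h x hg hg.inv_right
  rw [mul_inv_cancel, B_one] at h1
  linarith

theorem B_commutator (hX : IsCAT0 X) (h : Iso G X) (x : X) {f y z : G} (hy : Commute f y)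
    (hz : Commute f z) : B x ⁅y, z⁆ f = 0 := by
  rw [commutatorElement_def, B_mul hX h x ((hy.mul_right hz).mul_right hy.inv_right) hz.inv_right,
    B_mul hX h x (hy.mul_right hz) hy.inv_right, B_mul hX h x hy hz, B_inv hX h x hy,
    B_inv hX h x hz]
  ring

/-- midpoints halve the displacement -/
theorem exists_half (hX : IsCAT0 X) (h : Iso G X) (g : G) (x : X) :
    ∃ m : X, dist m (g • m) ≤ dist x (g ^ 2 • x) / 2 := by
  obtain ⟨γ, hγ⟩ := hX.1 x (g • x)
  refine ⟨γ (1 / 2), ?_⟩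
  have hgγ : IsGeodesic (fun t => g • γ t) (g • x) (g ^ 2 • x) := by
    refine ⟨by simp [hγ.1], by simp [hγ.2.1, pow_two, mul_smul], ?_⟩
    intro s hs t ht
    rw [h, hγ.2.2 s hs t ht, pow_two, mul_smul, h]
  have ht : (1 / 2 : ℝ) ∈ Icc (0 : ℝ) 1 := ⟨by norm_num, by norm_num⟩
  have h1 := hX.inequality hgγ (γ (1 / 2)) ht
  have h2 := hX.inequality hγ (g ^ 2 • x) ht
  have h3 := hγ.2.2 (1 / 2) ht 1 ⟨by norm_num, le_rfl⟩
  rw [hγ.2.1] at h3
  norm_num at h3
  rw [h3] at h1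
  rw [dist_comm (g ^ 2 • x) (γ (1 / 2))] at h2
  rw [dist_comm (g ^ 2 • x) x, dist_comm (g ^ 2 • x) (g • x)] at h2
  have h4 : dist (γ (1 / 2)) (g • γ (1 / 2)) ^ 2 ≤ (dist x (g ^ 2 • x) / 2) ^ 2 := by
    nlinarith
  exact abs_le_of_sq_le_sq' h4 (by positivity) |>.2

theorem exists_pow (hX : IsCAT0 X) (h : Iso G X) (g : G) (k : ℕ) (x : X) :
    ∃ m : X, dist m (g • m) ≤ dist x (g ^ 2 ^ k • x) / 2 ^ k := by
  induction k generalizing x with
  | zero => exact ⟨x, by simp⟩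
  | succ k ih =>
    obtain ⟨m, hm⟩ := exists_half hX h (g ^ 2 ^ k) x
    obtain ⟨m', hm'⟩ := ih m
    refine ⟨m', hm'.trans ?_⟩
    rw [← pow_mul, ← pow_succ] at hm
    have e : dist x (g ^ 2 ^ (k + 1) • x) / 2 ^ (k + 1) = dist x (g ^ 2 ^ (k + 1) • x) / 2 / 2 ^ k := by
      rw [pow_succ (2 : ℝ) k]; field_simp
    rw [e]
    gcongr

theorem Q_pos (hX : IsCAT0 X) (h : Iso G X) (x : X) {g : G} {δ : ℝ} (hδ : 0 < δ)
    (hg : ∀ x : X, δ ≤ dist x (g • x)) : δ ^ 2 ≤ Q x g := by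
  refine le_ciInf fun k => ?_
  obtain ⟨m, hm⟩ := exists_pow hX h g k x
  have h1 := (hg m).trans hm
  unfold qk
  have h2 : δ ^ 2 ≤ (dist x (g ^ 2 ^ k • x) / 2 ^ k) ^ 2 := by gcongr
  rw [div_pow, ← pow_mul, mul_comm k 2, pow_mul] at h2
  norm_num at h2 ⊢
  exact h2

end Action

theorem obstruction {X : Type} [MetricSpace X] [Nonempty X] (hX : IsCAT0 X) {G : Type} [Group G]
    [MulAction G X] (hiso : ∀ (g : G) (x y : X), dist (g • x) (g • y) = dist x y)
    (hdisp : ∃ δ : ℝ, 0 < δ ∧ ∀ g : G, g ≠ 1 → ∀ x : X, δ ≤ dist x (g • x))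
    {f l y z f' y' z' : G} (h1 : Commute f y) (h2 : Commute f z) (hl : l = ⁅y, z⁆)
    (hf' : f' = l * f) (h3 : Commute f' y') (h4 : Commute f' z') (hf : f = ⁅y', z'⁆) : f = 1 := by
  by_contra hne
  obtain ⟨δ, hδ, hd⟩ := hdisp
  obtain ⟨x⟩ := ‹Nonempty X›
  have hpos := Q_pos hX hiso x hδ (hd f hne)
  have hlf : Commute f l := by
    rw [hl, commutatorElement_def]
    exact ((h1.mul_right h2).mul_right h1.inv_right).mul_right h2.inv_right
  have e1 : B x l f = 0 := by rw [hl]; exact B_commutator hX hiso x h1 h2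
  have e2 : B x f f' = 0 := by
    conv_lhs => rw [hf]
    exact B_commutator hX hiso x h3 h4
  have e3 := B_sq hX hiso x hlf
  have e4 : f * f' = l * f ^ 2 := by rw [hf', ← mul_assoc, hlf.eq, mul_assoc, pow_two]
  unfold B at e1 e2 e3
  rw [e4, hf'] at e2
  rw [Q_sq hiso] at e3
  have : (0 : ℝ) < δ ^ 2 := by positivity
  linarith

end Pool.Agent.Work.MP_f0c219_gt.Obstruct
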