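import Pool.Agent.Work.MP_f0c219_gt.Cat0

/-!
# Reshetnyak's gluing theorem for CAT(0) spaces (MP_f0c219_gt, block C)

`isCAT0_union`: if `X` is the union of two CAT(0) subspaces whose intersection is geodesic, and
every geodesic between the two sides crosses the intersection, then `X` is CAT(0).
-/

open Set Topology

namespace Pool.Agent.Work.MP_f0c219_gt.Reshetnyak

variable {X : Type*} [MetricSpace X]

/-- A geodesic staying in `Y`. -/
def Geo (Y : Set X) (γ : ℝ → X) (x y : X) : Prop :=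
  IsGeodesic γ x y ∧ ∀ t ∈ Icc (0 : ℝ) 1, γ t ∈ Y

/-- CAT(0) for a subset, stated with points and paths of `X`. -/
structure CatOn (Y : Set X) : Prop where
  geo : ∀ x ∈ Y, ∀ y ∈ Y, ∃ γ : ℝ → X, Geo Y γ x y
  ineq : ∀ x ∈ Y, ∀ y ∈ Y, ∀ p ∈ Y, ∀ γ : ℝ → X, Geo Y γ x y → ∀ t ∈ Icc (0 : ℝ) 1,
    dist p (γ t) ^ 2 ≤ (1 - t) * dist p x ^ 2 + t * dist p y ^ 2 - t * (1 - t) * dist x y ^ 2

theorem catOn_of {Y : Set X} (h : IsCAT0 Y) : CatOn Y := by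
  refine ⟨?_, ?_⟩
  · intro x hx y hy
    obtain ⟨γ, h0, h1, hd⟩ := h.1 ⟨x, hx⟩ ⟨y, hy⟩
    refine ⟨fun t => (γ t : X), ⟨by simp [h0], by simp [h1], ?_⟩, fun t _ => (γ t).2⟩
    intro s hs t ht
    exact hd s hs t ht
  · intro x hx y hy p hp γ hγ t ht
    obtain ⟨⟨h0, h1, hd⟩, hm⟩ := hγ
    let γ' : ℝ → Y := fun s => ⟨γ (projIcc 0 1 zero_le_one s), hm _ (projIcc 0 1 zero_le_one s).2⟩
    have hval : ∀ s ∈ Icc (0 : ℝ) 1, (γ' s : X) = γ s := by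
      intro s hs
      simp only [γ', projIcc_of_mem zero_le_one hs]
    have hg : IsGeodesic γ' ⟨x, hx⟩ ⟨y, hy⟩ := by
      refine ⟨?_, ?_, ?_⟩
      · apply Subtype.ext
        rw [hval 0 ⟨le_rfl, zero_le_one⟩, h0]
      · apply Subtype.ext
        rw [hval 1 ⟨zero_le_one, le_rfl⟩, h1]
      · intro s hs t ht
        rw [Subtype.dist_eq, Subtype.dist_eq, hval s hs, hval t ht]
        exact hd s hs t ht
    have := h.2 ⟨x, hx⟩ ⟨y, hy⟩ ⟨p, hp⟩ γ' hg t ht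
    simp only [Subtype.dist_eq, hval t ht] at this
    exact this

theorem Geo.dist_left {Y : Set X} {γ : ℝ → X} {x y : X} (h : Geo Y γ x y) {t : ℝ}
    (ht : t ∈ Icc (0 : ℝ) 1) : dist x (γ t) = t * dist x y := by
  have := h.1.2.2 0 ⟨le_rfl, zero_le_one⟩ t ht
  rw [h.1.1, zero_sub, abs_neg, abs_of_nonneg ht.1] at this
  exact this

theorem Geo.dist_right {Y : Set X} {γ : ℝ → X} {x y : X} (h : Geo Y γ x y) {t : ℝ}
    (ht : t ∈ Icc (0 : ℝ) 1) : dist (γ t) y = (1 - t) * dist x y := by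
  have := h.1.2.2 t ht 1 ⟨zero_le_one, le_rfl⟩
  rw [h.1.2.1, abs_sub_comm, abs_of_nonneg (by linarith [ht.2])] at this
  exact this

/-- Comparison for two points on two sides of a hinge. -/
theorem CatOn.hinge {Y : Set X} (h : CatOn Y) {a b c : X} (ha : a ∈ Y) (hb : b ∈ Y) (hc : c ∈ Y)
    {β γ : ℝ → X} (hβ : Geo Y β a b) (hγ : Geo Y γ a c) {ε η : ℝ} (hε : ε ∈ Icc (0 : ℝ) 1)
    (hη : η ∈ Icc (0 : ℝ) 1) :
    dist (β ε) (γ η) ^ 2 ≤ ε ^ 2 * dist a b ^ 2 + η ^ 2 * dist a c ^ 2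
      - ε * η * (dist a b ^ 2 + dist a c ^ 2 - dist b c ^ 2) := by
  have h1 := h.ineq a ha c hc (β ε) (hβ.2 ε hε) γ hγ η hη
  have h2 := h.ineq a ha b hb c hc β hβ ε hε
  rw [dist_comm (β ε) a, hβ.dist_left hε, dist_comm (β ε) c] at h1
  rw [dist_comm c a, dist_comm c b] at h2
  have h3 := mul_le_mul_of_nonneg_left h2 hη.1
  nlinarith

/-- The weighted quadrilateral inequality. -/
theorem CatOn.quadW {Y : Set X} (h : CatOn Y) {x y a b : X} (hx : x ∈ Y) (hy : y ∈ Y)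
    (ha : a ∈ Y) (hb : b ∈ Y) {κ₀ κ₁ : ℝ} (h0 : 0 < κ₀) (h1 : 0 < κ₁) :
    (1 + κ₀) * dist y a ^ 2 + (1 + κ₁) * dist x b ^ 2 ≤
      κ₁ * (1 + κ₀) / κ₀ * dist x a ^ 2 + κ₀ * (1 + κ₁) / κ₁ * dist y b ^ 2 + dist x y ^ 2
        + (1 + κ₀) * (1 + κ₁) * dist a b ^ 2 := by
  obtain ⟨γ, hγ⟩ := h.geo x hx b hb
  set S : ℝ := κ₀ + κ₁ + κ₀ * κ₁ with hS
  have hS0 : 0 < S := by positivity
  set t : ℝ := κ₀ * (1 + κ₁) / S with ht
  have ht' : 1 - t = κ₁ / S := by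
    rw [ht]; field_simp; rw [hS]; ring
  have htI : t ∈ Icc (0 : ℝ) 1 := by
    refine ⟨by positivity, ?_⟩
    have : 0 ≤ 1 - t := by rw [ht']; positivity
    linarith
  have e1 := h.ineq x hx b hb y hy γ hγ t htI
  have e2 := h.ineq x hx b hb a ha γ hγ t htI
  rw [dist_comm y x] at e1
  rw [dist_comm a x] at e2
  set q := γ t
  -- triangle inequality with weights
  have e3 : dist y a ≤ dist y q + dist a q := by
    have := dist_triangle y q a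
    rwa [dist_comm q a] at this
  -- `D₀² ≤ d(y,q)²/μ + d(q,a)²/(1-μ)`
  have e4 : dist y a ^ 2 ≤ S / (κ₁ * (1 + κ₀)) * dist y q ^ 2 + S / κ₀ * dist a q ^ 2 := by
    have h5 : dist y a ^ 2 ≤ (dist y q + dist a q) ^ 2 := by
      have := @dist_nonneg _ _ y a
      gcongr
    have h6 : S / (κ₁ * (1 + κ₀)) = 1 + κ₀ / (κ₁ * (1 + κ₀)) := by
      field_simp; rw [hS]; ring
    have h7 : S / κ₀ = 1 + κ₁ * (1 + κ₀) / κ₀ := by
      field_simp; rw [hS]; ring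
    rw [h6, h7]
    set w := κ₀ / (κ₁ * (1 + κ₀)) with hw
    have hw0 : 0 < w := by positivity
    have hw1 : κ₁ * (1 + κ₀) / κ₀ = 1 / w := by rw [hw]; field_simp
    rw [hw1]
    have h8 : 0 ≤ (w * dist y q - dist a q) ^ 2 / w := by positivity
    have h9 : (w * dist y q - dist a q) ^ 2 / w
        = w * dist y q ^ 2 - 2 * dist y q * dist a q + 1 / w * dist a q ^ 2 := by
      field_simp
      ring
    nlinarith
  rw [ht'] at e1 e2
  have f1 := mul_le_mul_of_nonneg_left e1 (by positivity : 0 ≤ S / κ₁)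
  have f2 := mul_le_mul_of_nonneg_left e2 (by positivity : 0 ≤ S * (1 + κ₀) / κ₀)
  have f3 := mul_le_mul_of_nonneg_left e4 (by positivity : 0 ≤ 1 + κ₀)
  have g1 : S / κ₁ * (κ₁ / S * dist x y ^ 2 + t * dist y b ^ 2 - t * (κ₁ / S) * dist x b ^ 2)
      = dist x y ^ 2 + κ₀ * (1 + κ₁) / κ₁ * dist y b ^ 2 - κ₀ * (1 + κ₁) / S * dist x b ^ 2 := by
    rw [ht]; field_simp
  have g2 : S * (1 + κ₀) / κ₀ *
      (κ₁ / S * dist x a ^ 2 + t * dist a b ^ 2 - t * (κ₁ / S) * dist x b ^ 2)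
      = κ₁ * (1 + κ₀) / κ₀ * dist x a ^ 2 + (1 + κ₀) * (1 + κ₁) * dist a b ^ 2
        - (1 + κ₀) * (1 + κ₁) * κ₁ / S * dist x b ^ 2 := by
    rw [ht]; field_simp
  have g3 : (1 + κ₀) * (S / (κ₁ * (1 + κ₀)) * dist y q ^ 2 + S / κ₀ * dist a q ^ 2)
      = S / κ₁ * dist y q ^ 2 + S * (1 + κ₀) / κ₀ * dist a q ^ 2 := by
    field_simp
  have g4 : (1 + κ₁) * dist x b ^ 2 = κ₀ * (1 + κ₁) / S * dist x b ^ 2
      + (1 + κ₀) * (1 + κ₁) * κ₁ / S * dist x b ^ 2 := by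
    field_simp; rw [hS]; ring
  rw [g1] at f1
  rw [g2] at f2
  rw [g3] at f3
  linarith

/-- Distances between points on two opposite sides of a quadrilateral. -/
theorem CatOn.quadPoint {Y : Set X} (h : CatOn Y) {x y a b : X} (hx : x ∈ Y) (hy : y ∈ Y)
    (ha : a ∈ Y) (hb : b ∈ Y) {γ g : ℝ → X} (hγ : Geo Y γ x y) (hg : Geo Y g a b)
    {κ₀ κ₁ : ℝ} (h0 : 0 < κ₀) (h1 : 0 < κ₁) {t s κ : ℝ} (ht : t ∈ Icc (0 : ℝ) 1)
    (hκ : κ = (1 - t) * κ₀ + t * κ₁) (hs : s = t * (1 + κ₁) / (1 + κ)) :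
    (1 + κ) / κ * dist (g s) (γ t) ^ 2 ≤
      (1 - t) * ((1 + κ₀) / κ₀ * dist x a ^ 2) + t * ((1 + κ₁) / κ₁ * dist y b ^ 2)
      - t * (1 - t) * dist x y ^ 2
      + t * (1 - t) * (1 + κ₀) * (1 + κ₁) / (1 + κ) * dist a b ^ 2 := by
  have ht0 := ht.1
  have ht1 : 0 ≤ 1 - t := by linarith [ht.2]
  have hκ0 : 0 < κ := by
    rw [hκ]
    rcases ht0.eq_or_lt with h | h
    · rw [← h]; simpa using h0
    · have := mul_pos h h1
      have := mul_nonneg ht1 h0.le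
      linarith
  have hs' : 1 - s = (1 - t) * (1 + κ₀) / (1 + κ) := by
    rw [hs]; field_simp; rw [hκ]; ring
  have hsI : s ∈ Icc (0 : ℝ) 1 := by
    refine ⟨by rw [hs]; positivity, ?_⟩
    have : 0 ≤ 1 - s := by rw [hs']; positivity
    linarith
  have e1 := h.ineq x hx y hy (g s) (hg.2 s hsI) γ hγ t ht
  have e2 := h.ineq a ha b hb x hx g hg s hsI
  have e3 := h.ineq a ha b hb y hy g hg s hsI
  have e4 := h.quadW hx hy ha hb h0 h1
  rw [dist_comm (g s) x, dist_comm (g s) y] at e1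
  set D := dist (g s) (γ t) ^ 2
  have f2 := mul_le_mul_of_nonneg_left e2 ht1
  have f3 := mul_le_mul_of_nonneg_left e3 ht0
  have f4 := mul_le_mul_of_nonneg_left e4 (by positivity : 0 ≤ t * (1 - t) / (1 + κ))
  have f5 : D ≤ (1 - t) * ((1 - s) * dist x a ^ 2 + s * dist x b ^ 2 - s * (1 - s) * dist a b ^ 2)
      + t * ((1 - s) * dist y a ^ 2 + s * dist y b ^ 2 - s * (1 - s) * dist a b ^ 2)
      - t * (1 - t) * dist x y ^ 2 := by linarith
  have f6 : (1 - t) * ((1 - s) * dist x a ^ 2 + s * dist x b ^ 2 - s * (1 - s) * dist a b ^ 2)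
      + t * ((1 - s) * dist y a ^ 2 + s * dist y b ^ 2 - s * (1 - s) * dist a b ^ 2)
      - t * (1 - t) * dist x y ^ 2
      = t * (1 - t) / (1 + κ) * ((1 + κ₀) * dist y a ^ 2 + (1 + κ₁) * dist x b ^ 2)
      + (1 - t) ^ 2 * (1 + κ₀) / (1 + κ) * dist x a ^ 2
      + t ^ 2 * (1 + κ₁) / (1 + κ) * dist y b ^ 2
      - t * (1 - t) * (1 + κ₀) * (1 + κ₁) / (1 + κ) ^ 2 * dist a b ^ 2
      - t * (1 - t) * dist x y ^ 2 := by
    rw [hs', hs]; field_simp; ring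
  rw [f6] at f5
  have f7 : D ≤ t * (1 - t) / (1 + κ) *
      (κ₁ * (1 + κ₀) / κ₀ * dist x a ^ 2 + κ₀ * (1 + κ₁) / κ₁ * dist y b ^ 2 + dist x y ^ 2
        + (1 + κ₀) * (1 + κ₁) * dist a b ^ 2)
      + (1 - t) ^ 2 * (1 + κ₀) / (1 + κ) * dist x a ^ 2
      + t ^ 2 * (1 + κ₁) / (1 + κ) * dist y b ^ 2
      - t * (1 - t) * (1 + κ₀) * (1 + κ₁) / (1 + κ) ^ 2 * dist a b ^ 2
      - t * (1 - t) * dist x y ^ 2 := by linarith
  have f8 := mul_le_mul_of_nonneg_left f7 (by positivity : 0 ≤ (1 + κ) / κ)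
  refine f8.trans (le_of_eq ?_)
  have k1 : 1 + κ ≠ 0 := by positivity
  have k2 : κ ≠ 0 := hκ0.ne'
  have k3 : κ₀ ≠ 0 := h0.ne'
  have k4 : κ₁ ≠ 0 := h1.ne'
  generalize dist x a ^ 2 = X₁
  generalize dist y b ^ 2 = X₂
  generalize dist x y ^ 2 = X₃
  generalize dist a b ^ 2 = X₄
  have c1 : (1 + κ) / κ * (t * (1 - t) / (1 + κ) * (κ₁ * (1 + κ₀) / κ₀)
      + (1 - t) ^ 2 * (1 + κ₀) / (1 + κ)) = (1 - t) * ((1 + κ₀) / κ₀) := by
    field_simp
    rw [hκ]; ring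
  have c2 : (1 + κ) / κ * (t * (1 - t) / (1 + κ) * (κ₀ * (1 + κ₁) / κ₁)
      + t ^ 2 * (1 + κ₁) / (1 + κ)) = t * ((1 + κ₁) / κ₁) := by
    field_simp
    rw [hκ]; ring
  have c3 : (1 + κ) / κ * (t * (1 - t) / (1 + κ) - t * (1 - t)) = - (t * (1 - t)) := by
    field_simp
    ring
  have c4 : (1 + κ) / κ * (t * (1 - t) / (1 + κ) * ((1 + κ₀) * (1 + κ₁))
      - t * (1 - t) * (1 + κ₀) * (1 + κ₁) / (1 + κ) ^ 2)
      = t * (1 - t) * (1 + κ₀) * (1 + κ₁) / (1 + κ) := by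
    field_simp
    ring
  linear_combination X₁ * c1 + X₂ * c2 + X₃ * c3 + X₄ * c4

/-- The gluing situation. -/
structure Glue (Y₁ Y₂ : Set X) : Prop where
  c₁ : CatOn Y₁
  c₂ : CatOn Y₂
  inter : ∀ x ∈ Y₁ ∩ Y₂, ∀ y ∈ Y₁ ∩ Y₂, ∃ γ : ℝ → X, Geo (Y₁ ∩ Y₂) γ x y
  cross : ∀ x ∈ Y₁, ∀ y ∈ Y₂, ∃ a ∈ Y₁ ∩ Y₂, dist x y = dist x a + dist a y

theorem Glue.symm {Y₁ Y₂ : Set X} (h : Glue Y₁ Y₂) : Glue Y₂ Y₁ := by
  refine ⟨h.c₂, h.c₁, ?_, ?_⟩
  · rw [inter_comm]; exact h.inter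
  · intro x hx y hy
    obtain ⟨a, ha, hd⟩ := h.cross y hy x hx
    refine ⟨a, ⟨ha.2, ha.1⟩, ?_⟩
    rw [dist_comm x y, hd, dist_comm y a, dist_comm a x, add_comm]

theorem Glue.far_aux {Y₁ Y₂ : Set X} (h : Glue Y₁ Y₂) {p x y : X} (hp : p ∈ Y₂) (hx : x ∈ Y₁)
    (hy : y ∈ Y₁) {γ : ℝ → X} (hγ : Geo Y₁ γ x y) {t : ℝ} (ht : t ∈ Icc (0 : ℝ) 1) {a b : X}
    (ha : a ∈ Y₁ ∩ Y₂) (hb : b ∈ Y₁ ∩ Y₂) {κ₀ κ₁ : ℝ} (h0 : 0 < κ₀) (h1 : 0 < κ₁) :
    dist p (γ t) ^ 2 ≤ (1 - t) * ((1 + κ₀) * dist p a ^ 2 + (1 + κ₀) / κ₀ * dist x a ^ 2)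
      + t * ((1 + κ₁) * dist p b ^ 2 + (1 + κ₁) / κ₁ * dist y b ^ 2)
      - t * (1 - t) * dist x y ^ 2 := by
  obtain ⟨g, hg⟩ := h.inter a ha b hb
  have hg1 : Geo Y₁ g a b := ⟨hg.1, fun t ht => (hg.2 t ht).1⟩
  have hg2 : Geo Y₂ g a b := ⟨hg.1, fun t ht => (hg.2 t ht).2⟩
  set κ : ℝ := (1 - t) * κ₀ + t * κ₁ with hκ
  set s : ℝ := t * (1 + κ₁) / (1 + κ) with hs
  have ht0 := ht.1
  have ht1 : 0 ≤ 1 - t := by linarith [ht.2]
  have hκ0 : 0 < κ := by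
    rw [hκ]
    rcases ht0.eq_or_lt with h | h
    · rw [← h]; simpa using h0
    · have := mul_pos h h1
      have := mul_nonneg ht1 h0.le
      linarith
  have hs' : 1 - s = (1 - t) * (1 + κ₀) / (1 + κ) := by
    rw [hs]; field_simp; rw [hκ]; ring
  have hsI : s ∈ Icc (0 : ℝ) 1 := by
    refine ⟨by rw [hs]; positivity, ?_⟩
    have : 0 ≤ 1 - s := by rw [hs']; positivity
    linarith
  have e1 := h.c₁.quadPoint hx hy ha.1 hb.1 hγ hg1 h0 h1 ht hκ hs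
  have e2 := h.c₂.ineq a ha.2 b hb.2 p hp g hg2 s hsI
  have e3 : dist p (γ t) ^ 2 ≤ (1 + κ) * dist p (g s) ^ 2
      + (1 + κ) / κ * dist (g s) (γ t) ^ 2 := by
    have h5 : dist p (γ t) ^ 2 ≤ (dist p (g s) + dist (g s) (γ t)) ^ 2 := by
      have := @dist_nonneg _ _ p (γ t)
      have := dist_triangle p (g s) (γ t)
      gcongr
    have h8 : 0 ≤ (κ * dist p (g s) - dist (g s) (γ t)) ^ 2 / κ := by positivity
    have h9 : (κ * dist p (g s) - dist (g s) (γ t)) ^ 2 / κ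
        = κ * dist p (g s) ^ 2 - 2 * dist p (g s) * dist (g s) (γ t)
          + 1 / κ * dist (g s) (γ t) ^ 2 := by
      field_simp
      ring
    have h10 : (1 + κ) / κ = 1 + 1 / κ := by field_simp; ring
    rw [h10]
    nlinarith
  have e4 := mul_le_mul_of_nonneg_left e2 (by positivity : 0 ≤ 1 + κ)
  have e5 : (1 + κ) * ((1 - s) * dist p a ^ 2 + s * dist p b ^ 2 - s * (1 - s) * dist a b ^ 2)
      = (1 - t) * ((1 + κ₀) * dist p a ^ 2) + t * ((1 + κ₁) * dist p b ^ 2)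
        - t * (1 - t) * (1 + κ₀) * (1 + κ₁) / (1 + κ) * dist a b ^ 2 := by
    rw [hs', hs]; field_simp
  rw [e5] at e4
  linarith

/-- The CAT(0) inequality for a geodesic of `Y₁` and a point of `Y₂`. -/
theorem Glue.far {Y₁ Y₂ : Set X} (h : Glue Y₁ Y₂) {p x y : X} (hp : p ∈ Y₂) (hx : x ∈ Y₁)
    (hy : y ∈ Y₁) {γ : ℝ → X} (hγ : Geo Y₁ γ x y) {t : ℝ} (ht : t ∈ Icc (0 : ℝ) 1) :
    dist p (γ t) ^ 2 ≤ (1 - t) * dist p x ^ 2 + t * dist p y ^ 2 - t * (1 - t) * dist x y ^ 2 := by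
  obtain ⟨a, ha, hda⟩ := h.cross x hx p hp
  obtain ⟨b, hb, hdb⟩ := h.cross y hy p hp
  rw [dist_comm x p, dist_comm a p] at hda
  rw [dist_comm y p, dist_comm b p] at hdb
  have ht0 := ht.1
  have ht1 : 0 ≤ 1 - t := by linarith [ht.2]
  have key : ∀ δ : ℝ, 0 < δ → dist p (γ t) ^ 2 ≤ (1 - t) * dist p x ^ 2 + t * dist p y ^ 2
      - t * (1 - t) * dist x y ^ 2 + δ * (2 * (dist p x + dist p y)) := by
    intro δ hδ
    have aux : ∀ u v : ℝ, 0 ≤ u → 0 ≤ v →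
        (1 + (v + δ) / (u + δ)) * u ^ 2 + (1 + (v + δ) / (u + δ)) / ((v + δ) / (u + δ)) * v ^ 2
          ≤ (v + u) ^ 2 + 2 * δ * (v + u) := by
      intro u v hu hv
      have hu' : 0 < u + δ := by linarith
      have hv' : 0 < v + δ := by linarith
      have e1 : (1 + (v + δ) / (u + δ)) * u ^ 2 = (u + v + 2 * δ) * (u ^ 2 / (u + δ)) := by
        field_simp; ring
      have e2 : (1 + (v + δ) / (u + δ)) / ((v + δ) / (u + δ)) * v ^ 2
          = (u + v + 2 * δ) * (v ^ 2 / (v + δ)) := by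
        field_simp; ring
      have e3 : u ^ 2 / (u + δ) ≤ u := by
        rw [div_le_iff₀ hu']; nlinarith
      have e4 : v ^ 2 / (v + δ) ≤ v := by
        rw [div_le_iff₀ hv']; nlinarith
      rw [e1, e2]
      have e5 : 0 ≤ u + v + 2 * δ := by linarith
      have e6 := mul_le_mul_of_nonneg_left e3 e5
      have e7 := mul_le_mul_of_nonneg_left e4 e5
      nlinarith
    have hpa := @dist_nonneg _ _ p a
    have hxa := @dist_nonneg _ _ x a
    have hpb := @dist_nonneg _ _ p b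
    have hyb := @dist_nonneg _ _ y b
    have e := h.far_aux hp hx hy hγ ht ha hb
      (κ₀ := (dist x a + δ) / (dist p a + δ)) (κ₁ := (dist y b + δ) / (dist p b + δ))
      (by positivity) (by positivity)
    have f1 := mul_le_mul_of_nonneg_left (aux _ _ hpa hxa) ht1
    have f2 := mul_le_mul_of_nonneg_left (aux _ _ hpb hyb) ht0
    rw [← hda] at f1
    rw [← hdb] at f2
    have hP := @dist_nonneg _ _ p x
    have hQ := @dist_nonneg _ _ p y
    have g1 : (1 - t) * (2 * δ * dist p x) ≤ 2 * δ * dist p x := by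
      have := mul_nonneg ht0 (mul_nonneg hδ.le hP)
      nlinarith
    have g2 : t * (2 * δ * dist p y) ≤ 2 * δ * dist p y := by
      have := mul_nonneg ht1 (mul_nonneg hδ.le hQ)
      nlinarith
    nlinarith
  refine le_of_forall_pos_le_add fun ε hε => ?_
  have hP := @dist_nonneg _ _ p x
  have hQ := @dist_nonneg _ _ p y
  have h1 := key (ε / (2 * (dist p x + dist p y) + 1)) (by positivity)
  have h2 : ε / (2 * (dist p x + dist p y) + 1) * (2 * (dist p x + dist p y)) ≤ ε := by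
    rw [div_mul_eq_mul_div, div_le_iff₀ (by positivity)]
    nlinarith
  linarith

/-! ### Angles -/

/-- Distances along a chord seen from the origin. -/
theorem chord (c : ℝ) {ψ ψ' : ℝ} (h : Real.cos ψ ≠ 0) (h' : Real.cos ψ' ≠ 0) :
    (c / Real.cos ψ) ^ 2 + (c / Real.cos ψ') ^ 2
      - 2 * (c / Real.cos ψ) * (c / Real.cos ψ') * Real.cos (ψ' - ψ)
      = (c * (Real.tan ψ' - Real.tan ψ)) ^ 2 := by
  rw [Real.cos_sub, Real.tan_eq_sin_div_cos, Real.tan_eq_sin_div_cos]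
  have h1 := Real.sin_sq_add_cos_sq ψ
  have h2 := Real.sin_sq_add_cos_sq ψ'
  field_simp
  linear_combination (-c ^ 2 * Real.cos ψ' ^ 2) * h1 - c ^ 2 * Real.cos ψ ^ 2 * h2

/-- The fan inequality. -/
theorem fan {m e v α β γ q₀ q₁ : ℝ} (hm : 0 ≤ m) (he : 0 ≤ e) (hv : 0 ≤ v)
    (hα : α ∈ Icc 0 Real.pi) (hβ : β ∈ Icc 0 Real.pi) (hγ : γ ∈ Icc 0 Real.pi)
    (hsum : Real.pi ≤ α + β + γ) (h0 : 0 ≤ q₀) (h1 : 0 ≤ q₁)
    (e0 : q₀ ^ 2 = m ^ 2 + e ^ 2 - 2 * m * e * Real.cos β)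
    (e1 : q₁ ^ 2 = e ^ 2 + v ^ 2 - 2 * e * v * Real.cos γ) :
    m ^ 2 + v ^ 2 + 2 * m * v * Real.cos α ≤ (q₀ + q₁) ^ 2 := by
  obtain ⟨γ', h2, h3, h4, h5⟩ : ∃ γ' : ℝ, 0 ≤ γ' ∧ γ' ≤ γ ∧ β + γ' ≤ Real.pi ∧
      Real.pi ≤ α + β + γ' := by
    rcases le_total (β + γ) Real.pi with h | h
    · exact ⟨γ, hγ.1, le_rfl, h, hsum⟩
    · exact ⟨Real.pi - β, by linarith [hβ.2], by linarith, by linarith, by linarith [hα.1]⟩
  have c1 : Real.cos γ ≤ Real.cos γ' := Real.cos_le_cos_of_nonneg_of_le_pi h2 hγ.2 h3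
  have c2 : Real.cos (β + γ') ≤ Real.cos (Real.pi - α) :=
    Real.cos_le_cos_of_nonneg_of_le_pi (by linarith [hα.2]) h4 (by linarith)
  rw [Real.cos_pi_sub, Real.cos_add] at c2
  have hb := Real.sin_sq_add_cos_sq β
  have hg := Real.sin_sq_add_cos_sq γ'
  set cb := Real.cos β
  set sb := Real.sin β
  set cg := Real.cos γ'
  set sg := Real.sin γ'
  have e1' : e ^ 2 + v ^ 2 - 2 * e * v * cg ≤ q₁ ^ 2 := by
    rw [e1]
    have := mul_le_mul_of_nonneg_left c1 (by positivity : 0 ≤ 2 * e * v)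
    linarith
  -- Cauchy-Schwarz
  set Z := -(m * cb - e) * (v * cg - e) + m * v * sb * sg with hZ
  have hZ2 : Z ^ 2 ≤ (q₀ * q₁) ^ 2 := by
    have a1 : q₀ ^ 2 = (m * cb - e) ^ 2 + (m * sb) ^ 2 := by
      rw [e0]; linear_combination (-m ^ 2) * hb
    have a2 : (v * cg - e) ^ 2 + (v * sg) ^ 2 = e ^ 2 + v ^ 2 - 2 * e * v * cg := by
      linear_combination v ^ 2 * hg
    have a3 : Z ^ 2 ≤ ((m * cb - e) ^ 2 + (m * sb) ^ 2) * ((v * cg - e) ^ 2 + (v * sg) ^ 2) := by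
      have : ((m * cb - e) ^ 2 + (m * sb) ^ 2) * ((v * cg - e) ^ 2 + (v * sg) ^ 2) - Z ^ 2
          = ((m * cb - e) * (v * sg) + (m * sb) * (v * cg - e)) ^ 2 := by
        rw [hZ]; ring
      nlinarith [sq_nonneg ((m * cb - e) * (v * sg) + (m * sb) * (v * cg - e))]
    rw [← a1, a2] at a3
    calc Z ^ 2 ≤ q₀ ^ 2 * (e ^ 2 + v ^ 2 - 2 * e * v * cg) := a3
      _ ≤ q₀ ^ 2 * q₁ ^ 2 := mul_le_mul_of_nonneg_left e1' (sq_nonneg _)
      _ = (q₀ * q₁) ^ 2 := by ring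
  have hZ3 : Z ≤ q₀ * q₁ := (abs_le_of_sq_le_sq' hZ2 (mul_nonneg h0 h1)).2
  have c3 := mul_le_mul_of_nonneg_left c2 (by positivity : 0 ≤ 2 * m * v)
  have : (q₀ + q₁) ^ 2 = q₀ ^ 2 + q₁ ^ 2 + 2 * (q₀ * q₁) := by ring
  rw [this, e0]
  rw [hZ] at hZ3
  nlinarith

/-- Comparison angle. -/
noncomputable def ang (a b c : X) : ℝ :=
  Real.arccos ((dist a b ^ 2 + dist a c ^ 2 - dist b c ^ 2) / (2 * dist a b * dist a c))

theorem ang_mem (a b c : X) : ang a b c ∈ Icc 0 Real.pi :=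
  ⟨Real.arccos_nonneg _, Real.arccos_le_pi _⟩

theorem cos_ang {a b c : X} (hb : 0 < dist a b) (hc : 0 < dist a c) :
    2 * dist a b * dist a c * Real.cos (ang a b c)
      = dist a b ^ 2 + dist a c ^ 2 - dist b c ^ 2 := by
  have h0 : 0 < 2 * dist a b * dist a c := by positivity
  have t1 := dist_triangle b a c
  have t2 := dist_triangle a b c
  have t3 := dist_triangle a c b
  rw [dist_comm b a] at t1
  rw [dist_comm c b] at t3
  have hbc := @dist_nonneg _ _ b c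
  rw [ang, Real.cos_arccos]
  · field_simp
  · rw [le_div_iff₀ h0]
    nlinarith
  · rw [div_le_iff₀ h0]
    nlinarith [mul_nonneg (sub_nonneg.2 t2) (sub_nonneg.2 t3)]

theorem CatOn.hinge_ang {Y : Set X} (h : CatOn Y) {a b c : X} (ha : a ∈ Y) (hb : b ∈ Y)
    (hc : c ∈ Y) {β γ : ℝ → X} (hβ : Geo Y β a b) (hγ : Geo Y γ a c) (hb0 : 0 < dist a b)
    (hc0 : 0 < dist a c) {C ψ ψ' : ℝ} (hC : 0 ≤ C) (hψ : ψ ∈ Ioo (-(Real.pi / 2)) (Real.pi / 2))
    (hψ' : ψ' ∈ Ioo (-(Real.pi / 2)) (Real.pi / 2)) (hang : ang a b c = ψ' - ψ)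
    (h1 : C / Real.cos ψ ≤ dist a b) (h2 : C / Real.cos ψ' ≤ dist a c) :
    dist (β (C / Real.cos ψ / dist a b)) (γ (C / Real.cos ψ' / dist a c))
      ≤ C * (Real.tan ψ' - Real.tan ψ) := by
  have k1 : 0 < Real.cos ψ := Real.cos_pos_of_mem_Ioo hψ
  have k2 : 0 < Real.cos ψ' := Real.cos_pos_of_mem_Ioo hψ'
  have hle : ψ ≤ ψ' := by
    have := (ang_mem a b c).1
    linarith
  have htan : 0 ≤ Real.tan ψ' - Real.tan ψ := by
    rcases hle.eq_or_lt with h | h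
    · rw [h]; simp
    · have := Real.tan_lt_tan_of_lt_of_lt_pi_div_two hψ.1 hψ'.2 h
      linarith
  have hh := h.hinge ha hb hc hβ hγ (ε := C / Real.cos ψ / dist a b)
    (η := C / Real.cos ψ' / dist a c) ⟨by positivity, by rw [div_le_one hb0]; exact h1⟩
    ⟨by positivity, by rw [div_le_one hc0]; exact h2⟩
  rw [← cos_ang hb0 hc0, hang] at hh
  have e1 : (C / Real.cos ψ / dist a b) ^ 2 * dist a b ^ 2
      + (C / Real.cos ψ' / dist a c) ^ 2 * dist a c ^ 2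
      - C / Real.cos ψ / dist a b * (C / Real.cos ψ' / dist a c) *
        (2 * dist a b * dist a c * Real.cos (ψ' - ψ))
      = (C * (Real.tan ψ' - Real.tan ψ)) ^ 2 := by
    rw [← chord C k1.ne' k2.ne']
    field_simp
  rw [e1] at hh
  exact (abs_le_of_sq_le_sq' hh (mul_nonneg hC htan)).2

/-- The angles at a crossing point add up to at least `π`. -/
theorem Glue.angle_sum {Y₁ Y₂ : Set X} (h : Glue Y₁ Y₂) {p x y a b : X} (hp : p ∈ Y₁)
    (hx : x ∈ Y₁) (hy : y ∈ Y₂) (ha : a ∈ Y₁ ∩ Y₂) (hb : b ∈ Y₁ ∩ Y₂)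
    (hxy : dist x y = dist a x + dist a y) (hu : 0 < dist a x) (hv : 0 < dist a y)
    (hm : 0 < dist a p) (he : 0 < dist a b) :
    Real.pi ≤ ang a x p + ang a p b + ang a b y := by
  by_contra hlt
  push Not at hlt
  have hα := ang_mem a x p
  have hβ := ang_mem a p b
  have hγ := ang_mem a b y
  set α := ang a x p with hαd
  set β := ang a p b with hβd
  set γ := ang a b y with hγd
  set Φ := α + β + γ with hΦ
  obtain ⟨ξ, hξ⟩ := h.c₁.geo a ha.1 x hx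
  obtain ⟨ϖ, hϖ⟩ := h.c₁.geo a ha.1 p hp
  obtain ⟨ω, hω⟩ := h.inter a ha b hb
  obtain ⟨υ, hυ⟩ := h.c₂.geo a ha.2 y hy
  have hω1 : Geo Y₁ ω a b := ⟨hω.1, fun t ht => (hω.2 t ht).1⟩
  have hω2 : Geo Y₂ ω a b := ⟨hω.1, fun t ht => (hω.2 t ht).2⟩
  have hpi := Real.pi_pos
  have m0 : -(Φ / 2) ∈ Ioo (-(Real.pi / 2)) (Real.pi / 2) := ⟨by linarith, by linarith [hα.1, hβ.1, hγ.1]⟩
  have m1 : α - Φ / 2 ∈ Ioo (-(Real.pi / 2)) (Real.pi / 2) :=
    ⟨by linarith [hα.1], by linarith [hα.1, hβ.1, hγ.1]⟩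
  have m2 : α + β - Φ / 2 ∈ Ioo (-(Real.pi / 2)) (Real.pi / 2) :=
    ⟨by linarith [hα.1, hβ.1], by linarith [hα.1, hβ.1, hγ.1]⟩
  have m3 : Φ / 2 ∈ Ioo (-(Real.pi / 2)) (Real.pi / 2) := ⟨by linarith [hα.1, hβ.1, hγ.1], by linarith⟩
  have k1 := Real.cos_pos_of_mem_Ioo m1
  have k2 := Real.cos_pos_of_mem_Ioo m2
  have k3 := Real.cos_pos_of_mem_Ioo m3
  have k0 := Real.cos_pos_of_mem_Ioo m0
  -- a small scale
  set M := dist a x * Real.cos (-(Φ / 2)) with hM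
  obtain ⟨C, hC0, hC1, hC2, hC3, hC4⟩ : ∃ C : ℝ, 0 < C ∧ C ≤ dist a x * Real.cos (-(Φ / 2)) ∧
      C ≤ dist a p * Real.cos (α - Φ / 2) ∧ C ≤ dist a b * Real.cos (α + β - Φ / 2) ∧
      C ≤ dist a y * Real.cos (Φ / 2) := by
    refine ⟨min (min (dist a x * Real.cos (-(Φ / 2))) (dist a p * Real.cos (α - Φ / 2)))
      (min (dist a b * Real.cos (α + β - Φ / 2)) (dist a y * Real.cos (Φ / 2))), ?_, ?_, ?_, ?_, ?_⟩
    · refine lt_min (lt_min ?_ ?_) (lt_min ?_ ?_) <;> positivity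
    · exact (min_le_left _ _).trans (min_le_left _ _)
    · exact (min_le_left _ _).trans (min_le_right _ _)
    · exact (min_le_right _ _).trans (min_le_left _ _)
    · exact (min_le_right _ _).trans (min_le_right _ _)
  rw [← div_le_iff₀ k0] at hC1
  rw [← div_le_iff₀ k1] at hC2
  rw [← div_le_iff₀ k2] at hC3
  rw [← div_le_iff₀ k3] at hC4
  have d1 := h.c₁.hinge_ang ha.1 hx hp hξ hϖ hu hm hC0.le m0 m1 (by rw [← hαd]; ring) hC1 hC2
  have d2 := h.c₁.hinge_ang ha.1 hp hb.1 hϖ hω1 hm he hC0.le m1 m2 (by rw [← hβd]; ring) hC2 hC3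
  have d3 := h.c₂.hinge_ang ha.2 hb.2 hy hω2 hυ he hv hC0.le m2 m3 (by rw [← hγd, hΦ]; ring)
    hC3 hC4
  set x' := ξ (C / Real.cos (-(Φ / 2)) / dist a x)
  set p' := ϖ (C / Real.cos (α - Φ / 2) / dist a p)
  set b' := ω (C / Real.cos (α + β - Φ / 2) / dist a b)
  set y' := υ (C / Real.cos (Φ / 2) / dist a y)
  have i1 : C / Real.cos (-(Φ / 2)) / dist a x ∈ Icc (0 : ℝ) 1 :=
    ⟨by positivity, by rw [div_le_one hu]; exact hC1⟩
  have i3 : C / Real.cos (Φ / 2) / dist a y ∈ Icc (0 : ℝ) 1 :=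
    ⟨by positivity, by rw [div_le_one hv]; exact hC4⟩
  have f1 : dist x' x = dist a x - C / Real.cos (-(Φ / 2)) := by
    rw [hξ.dist_right i1]; field_simp
  have f3 : dist y' y = dist a y - C / Real.cos (Φ / 2) := by
    rw [hυ.dist_right i3]; field_simp
  have g1 : dist x y ≤ dist x' x + (dist x' p' + dist p' b' + dist b' y') + dist y' y := by
    have t1 := dist_triangle x x' y
    have t2 := dist_triangle x' y' y
    have t3 := dist_triangle x' p' y'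
    have t4 := dist_triangle p' b' y'
    rw [dist_comm x x'] at t1
    linarith
  rw [f1, f3, hxy] at g1
  have g2 : C / Real.cos (-(Φ / 2)) + C / Real.cos (Φ / 2)
      ≤ C * (Real.tan (Φ / 2) - Real.tan (-(Φ / 2))) := by
    linarith
  rw [Real.cos_neg, Real.tan_neg, Real.tan_eq_sin_div_cos] at g2
  have g3 : C / Real.cos (Φ / 2) + C / Real.cos (Φ / 2) = 2 * C * (1 / Real.cos (Φ / 2)) := by ring
  have g4 : C * (Real.sin (Φ / 2) / Real.cos (Φ / 2) - -(Real.sin (Φ / 2) / Real.cos (Φ / 2)))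
      = 2 * C * (Real.sin (Φ / 2) / Real.cos (Φ / 2)) := by ring
  rw [g3, g4] at g2
  have g5 : 1 / Real.cos (Φ / 2) ≤ Real.sin (Φ / 2) / Real.cos (Φ / 2) :=
    le_of_mul_le_mul_left g2 (by positivity)
  rw [div_le_div_iff_of_pos_right k3] at g5
  have g6 : Real.sin (Φ / 2) < 1 := by
    have := Real.sin_lt_sin_of_lt_of_le_pi_div_two m3.1.le (le_refl (Real.pi / 2)) m3.2
    rwa [Real.sin_pi_div_two] at this
  linarith

/-- The CAT(0) inequality at the point where a geodesic crosses the intersection. -/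
theorem Glue.corner {Y₁ Y₂ : Set X} (h : Glue Y₁ Y₂) {p x y a : X} (hp : p ∈ Y₁)
    (hx : x ∈ Y₁) (hy : y ∈ Y₂) (ha : a ∈ Y₁ ∩ Y₂) (hxy : dist x y = dist a x + dist a y) :
    dist a y * (dist a p ^ 2 + dist a x ^ 2 - dist p x ^ 2)
      + dist a x * (dist a p ^ 2 + dist a y ^ 2 - dist p y ^ 2) ≤ 0 := by
  rcases (@dist_nonneg _ _ a x).eq_or_lt with hu | hu
  · have : a = x := dist_eq_zero.1 hu.symm
    rw [← hu, ← this, dist_comm p a]; simp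
  rcases (@dist_nonneg _ _ a y).eq_or_lt with hv | hv
  · have : a = y := dist_eq_zero.1 hv.symm
    rw [← hv, ← this, dist_comm p a]; simp
  rcases (@dist_nonneg _ _ a p).eq_or_lt with hm | hm
  · have : a = p := dist_eq_zero.1 hm.symm
    rw [← hm, ← this]; simp
  obtain ⟨b, hb, hpy⟩ := h.cross p hp y hy
  rcases (@dist_nonneg _ _ a b).eq_or_lt with he | he
  · have hab : a = b := dist_eq_zero.1 he.symm
    rw [← hab, dist_comm p a] at hpy
    have t2 := dist_triangle a p x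
    have t3 := dist_triangle a x p
    rw [dist_comm x p] at t3
    rw [hpy]
    have hpx := @dist_nonneg _ _ p x
    have : (dist a p - dist a x) ^ 2 ≤ dist p x ^ 2 := by
      apply sq_le_sq'
      · linarith
      · linarith
    nlinarith
  have hsum := h.angle_sum hp hx hy ha hb hxy hu hv hm he
  have hα := cos_ang (a := a) (b := x) (c := p) hu hm
  have hβ := cos_ang (a := a) (b := p) (c := b) hm he
  have hγ := cos_ang (a := a) (b := b) (c := y) he hv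
  have hf := fan hm.le he.le hv.le (ang_mem a x p) (ang_mem a p b) (ang_mem a b y) hsum
    (q₀ := dist p b) (q₁ := dist b y) dist_nonneg dist_nonneg (by linarith) (by linarith)
  rw [← hpy] at hf
  have h1 := mul_le_mul_of_nonneg_left hf hu.le
  rw [dist_comm x p] at hα
  nlinarith

/-! ### Assembly -/

theorem Glue.any {Y₁ Y₂ : Set X} (h : Glue Y₁ Y₂) (hU : Y₁ ∪ Y₂ = univ) {x y : X} (hx : x ∈ Y₁)
    (hy : y ∈ Y₁) {γ : ℝ → X} (hγ : Geo Y₁ γ x y) (p : X) {t : ℝ} (ht : t ∈ Icc (0 : ℝ) 1) :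
    dist p (γ t) ^ 2 ≤ (1 - t) * dist p x ^ 2 + t * dist p y ^ 2 - t * (1 - t) * dist x y ^ 2 := by
  have hp : p ∈ Y₁ ∪ Y₂ := by rw [hU]; trivial
  rcases hp with hp | hp
  · exact h.c₁.ineq x hx y hy p hp γ hγ t ht
  · exact h.far hp hx hy hγ ht

theorem Glue.corner_any {Y₁ Y₂ : Set X} (h : Glue Y₁ Y₂) (hU : Y₁ ∪ Y₂ = univ) {x y a : X}
    (hx : x ∈ Y₁) (hy : y ∈ Y₂) (ha : a ∈ Y₁ ∩ Y₂) (hxy : dist x y = dist a x + dist a y) (p : X) :
    dist a y * (dist a p ^ 2 + dist a x ^ 2 - dist p x ^ 2)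
      + dist a x * (dist a p ^ 2 + dist a y ^ 2 - dist p y ^ 2) ≤ 0 := by
  have hp : p ∈ Y₁ ∪ Y₂ := by rw [hU]; trivial
  rcases hp with hp | hp
  · exact h.corner hp hx hy ha hxy
  · have := h.symm.corner (p := p) (x := y) (y := x) hp hy hx ⟨ha.2, ha.1⟩
      (by rw [dist_comm y x, hxy, add_comm])
    linarith

/-- The CAT(0) inequality, with a path which is to be proved geodesic. -/
def Good (x y : X) : Prop := ∃ γ : ℝ → X, γ 0 = x ∧ γ 1 = y ∧ ∀ p : X, ∀ t ∈ Icc (0 : ℝ) 1,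
  dist p (γ t) ^ 2 ≤ (1 - t) * dist p x ^ 2 + t * dist p y ^ 2 - t * (1 - t) * dist x y ^ 2

theorem Glue.good_same {Y₁ Y₂ : Set X} (h : Glue Y₁ Y₂) (hU : Y₁ ∪ Y₂ = univ) {x y : X}
    (hx : x ∈ Y₁) (hy : y ∈ Y₁) : Good x y := by
  obtain ⟨γ, hγ⟩ := h.c₁.geo x hx y hy
  exact ⟨γ, hγ.1.1, hγ.1.2.1, fun p t ht => h.any hU hx hy hγ p ht⟩

theorem Glue.good_cross {Y₁ Y₂ : Set X} (h : Glue Y₁ Y₂) (hU : Y₁ ∪ Y₂ = univ) {x y : X}
    (hx : x ∈ Y₁) (hy : y ∈ Y₂) : Good x y := by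
  have hU' : Y₂ ∪ Y₁ = univ := by rw [union_comm]; exact hU
  obtain ⟨a, ha, hxy⟩ := h.cross x hx y hy
  rw [dist_comm x a] at hxy
  rcases (@dist_nonneg _ _ a x).eq_or_lt with hu | hu
  · have hax : a = x := dist_eq_zero.1 hu.symm
    exact h.symm.good_same hU' (hax ▸ ha.2) hy
  rcases (@dist_nonneg _ _ a y).eq_or_lt with hv | hv
  · have hay : a = y := dist_eq_zero.1 hv.symm
    exact h.good_same hU hx (hay ▸ ha.1)
  obtain ⟨ξ, hξ⟩ := h.c₁.geo x hx a ha.1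
  obtain ⟨υ, hυ⟩ := h.c₂.geo a ha.2 y hy
  have hc := h.corner_any hU hx hy ha hxy
  set u := dist a x with hud
  set v := dist a y with hvd
  set L := dist x y with hLd
  have hL : 0 < L := by rw [hxy]; positivity
  set σ := u / L with hσ
  have hσ0 : 0 < σ := by positivity
  have hσ1 : 1 - σ = v / L := by rw [hσ]; field_simp; linarith
  have hσ2 : σ < 1 := by
    have : 0 < 1 - σ := by rw [hσ1]; positivity
    linarith
  refine ⟨fun t => if t ≤ σ then ξ (t / σ) else υ ((t - σ) / (1 - σ)), ?_, ?_, ?_⟩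
  · simp only [if_pos hσ0.le, zero_div, hξ.1.1]
  · simp only [if_neg (not_le.2 hσ2)]
    rw [div_self (by linarith), hυ.1.2.1]
  · intro p t ht
    have hcp := hc p
    have hcp' : L * dist p a ^ 2 ≤ v * dist p x ^ 2 + u * dist p y ^ 2 - u * v * L := by
      rw [dist_comm a p] at hcp
      rw [hxy]
      nlinarith
    simp only
    split_ifs with hts
    · have hI : t / σ ∈ Icc (0 : ℝ) 1 := ⟨div_nonneg ht.1 hσ0.le, by rw [div_le_one hσ0]; exact hts⟩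
      have e := h.any hU hx ha.1 hξ p hI
      rw [dist_comm x a, ← hud] at e
      have hts' : t / σ = t * L / u := by rw [hσ]; field_simp
      rw [hts'] at e
      have f := mul_le_mul_of_nonneg_left hcp' (div_nonneg ht.1 hu.le)
      have g1 : t / u * (L * dist p a ^ 2) = t * L / u * dist p a ^ 2 := by ring
      rw [g1] at f
      have g2 : (1 - t * L / u) * dist p x ^ 2 + t / u * (v * dist p x ^ 2 + u * dist p y ^ 2
          - u * v * L) - t * L / u * (1 - t * L / u) * u ^ 2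
          = (1 - t) * dist p x ^ 2 + t * dist p y ^ 2 - t * (1 - t) * L ^ 2 := by
        rw [hxy]; field_simp; ring
      rw [hts']
      linarith
    · push Not at hts
      have hs1 : 0 < 1 - σ := by linarith
      have hI : (t - σ) / (1 - σ) ∈ Icc (0 : ℝ) 1 :=
        ⟨div_nonneg (by linarith) hs1.le, by rw [div_le_one hs1]; linarith [ht.2]⟩
      have e := h.symm.any hU' ha.2 hy hυ p hI
      rw [← hvd] at e
      have hts' : (t - σ) / (1 - σ) = 1 - (1 - t) * L / v := by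
        rw [hσ1, hσ]; field_simp; rw [hxy]; ring
      rw [hts'] at e
      have f := mul_le_mul_of_nonneg_left hcp' (div_nonneg (by linarith [ht.2] : 0 ≤ 1 - t) hv.le)
      have g1 : (1 - t) / v * (L * dist p a ^ 2) = (1 - (1 - (1 - t) * L / v)) * dist p a ^ 2 := by
        ring
      rw [g1] at f
      have g2 : (1 - (1 - t) * L / v) * dist p y ^ 2
          + (1 - t) / v * (v * dist p x ^ 2 + u * dist p y ^ 2 - u * v * L)
          - (1 - (1 - t) * L / v) * (1 - (1 - (1 - t) * L / v)) * v ^ 2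
          = (1 - t) * dist p x ^ 2 + t * dist p y ^ 2 - t * (1 - t) * L ^ 2 := by
        rw [hxy]; field_simp; ring
      rw [hts']
      linarith

/-- **Reshetnyak's gluing theorem** for CAT(0) spaces. -/
theorem isCAT0_union {X : Type*} [MetricSpace X] {Y₁ Y₂ : Set X} (hU : Y₁ ∪ Y₂ = univ)
    (h₁ : IsCAT0 Y₁) (h₂ : IsCAT0 Y₂)
    (hA : ∀ x ∈ Y₁ ∩ Y₂, ∀ y ∈ Y₁ ∩ Y₂, ∃ γ : ℝ → X, IsGeodesic γ x y ∧
      ∀ t ∈ Icc (0 : ℝ) 1, γ t ∈ Y₁ ∩ Y₂)
    (hx : ∀ x ∈ Y₁, ∀ y ∈ Y₂, ∃ a ∈ Y₁ ∩ Y₂, dist x y = dist x a + dist a y) : IsCAT0 X := by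
  have h : Glue Y₁ Y₂ := ⟨catOn_of h₁, catOn_of h₂, hA, hx⟩
  have hU' : Y₂ ∪ Y₁ = univ := by rw [union_comm]; exact hU
  have good : ∀ x y : X, Good x y := by
    intro x y
    have hx : x ∈ Y₁ ∪ Y₂ := by rw [hU]; trivial
    have hy : y ∈ Y₁ ∪ Y₂ := by rw [hU]; trivial
    rcases hx with hx | hx <;> rcases hy with hy | hy
    · exact h.good_same hU hx hy
    · exact h.good_cross hU hx hy
    · exact h.symm.good_cross hU' hx hy
    · exact h.symm.good_same hU' hx hy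
  choose γ h0 h1 hC using good
  exact isCAT0_of_bicombing γ h0 h1 fun p x y => hC x y p

end Pool.Agent.Work.MP_f0c219_gt.Reshetnyak
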