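import Pool.Agent.Work.MP_f0c219_gt_h82.Reshetnyak

/-!
# General lemmas on CAT(0) spaces (MP_f0c219_gt, E1-E5, E7)
-/

open Set Topology

namespace Pool.Agent.Work.MP_f0c219_gt

/-- E1 -/
theorem IsCAT0.of_equiv {X Y : Type*} [MetricSpace X] [MetricSpace Y] (e : X ≃ Y)
    (he : Isometry e) (hX : IsCAT0 X) : IsCAT0 Y := by
  have hs : ∀ a b : Y, dist (e.symm a) (e.symm b) = dist a b := by
    intro a b
    rw [← he.dist_eq, e.apply_symm_apply, e.apply_symm_apply]
  refine ⟨?_, ?_⟩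
  · intro x y
    obtain ⟨γ, h0, h1, hd⟩ := hX.1 (e.symm x) (e.symm y)
    refine ⟨fun t => e (γ t), by simp [h0], by simp [h1], ?_⟩
    intro s hs' t ht
    rw [he.dist_eq, hd s hs' t ht, hs]
  · intro x y p γ hγ t ht
    have hg : IsGeodesic (fun t => e.symm (γ t)) (e.symm x) (e.symm y) := by
      refine ⟨by simp [hγ.1], by simp [hγ.2.1], ?_⟩
      intro s hs' t ht
      rw [hs, hs, hγ.2.2 s hs' t ht]
    have := hX.2 _ _ (e.symm p) _ hg t ht
    simpa only [hs] using this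

/-- E2 -/
theorem IsCAT0.of_convex {X : Type*} [MetricSpace X] (hX : IsCAT0 X) (S : Set X)
    (hS : ∀ x ∈ S, ∀ y ∈ S, ∃ γ : ℝ → X, IsGeodesic γ x y ∧ ∀ t ∈ Icc (0 : ℝ) 1, γ t ∈ S) :
    IsCAT0 S := by
  refine ⟨?_, ?_⟩
  · rintro ⟨x, hx⟩ ⟨y, hy⟩
    obtain ⟨γ, ⟨h0, h1, hd⟩, hm⟩ := hS x hx y hy
    let γ' : ℝ → S := fun s => ⟨γ (projIcc 0 1 zero_le_one s), hm _ (projIcc 0 1 zero_le_one s).2⟩
    have hval : ∀ s ∈ Icc (0 : ℝ) 1, (γ' s : X) = γ s := by
      intro s hs
      simp only [γ', projIcc_of_mem zero_le_one hs]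
    refine ⟨γ', ?_, ?_, ?_⟩
    · apply Subtype.ext
      rw [hval 0 ⟨le_rfl, zero_le_one⟩, h0]
    · apply Subtype.ext
      rw [hval 1 ⟨zero_le_one, le_rfl⟩, h1]
    · intro s hs t ht
      rw [Subtype.dist_eq, Subtype.dist_eq, hval s hs, hval t ht]
      exact hd s hs t ht
  · rintro ⟨x, hx⟩ ⟨y, hy⟩ ⟨p, hp⟩ γ ⟨h0, h1, hd⟩ t ht
    exact hX.2 x y p (fun s => (γ s : X)) ⟨by simp [h0], by simp [h1], fun s hs t ht => hd s hs t ht⟩
      t ht

/-- A geodesic between points of a ball stays in the ball. -/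
theorem IsCAT0.dist_le_of_geodesic {X : Type*} [MetricSpace X] (hX : IsCAT0 X) {p x y : X}
    {r : ℝ} (hx : dist p x ≤ r) (hy : dist p y ≤ r) {γ : ℝ → X} (hγ : IsGeodesic γ x y) {t : ℝ}
    (ht : t ∈ Icc (0 : ℝ) 1) : dist p (γ t) ≤ r := by
  have hr : 0 ≤ r := dist_nonneg.trans hx
  have h := hX.2 x y p γ hγ t ht
  have h0 := ht.1
  have h1 : 0 ≤ 1 - t := by linarith [ht.2]
  have h2 : dist p x ^ 2 ≤ r ^ 2 := by
    have := @dist_nonneg _ _ p x
    gcongr
  have h3 : dist p y ^ 2 ≤ r ^ 2 := by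
    have := @dist_nonneg _ _ p y
    gcongr
  have h4 := mul_le_mul_of_nonneg_left h2 h1
  have h5 := mul_le_mul_of_nonneg_left h3 h0
  have h6 : 0 ≤ t * (1 - t) * dist x y ^ 2 := by positivity
  have h7 : dist p (γ t) ^ 2 ≤ r ^ 2 := by nlinarith
  exact (abs_le_of_sq_le_sq' h7 hr).2

/-- E2' -/
theorem IsCAT0.closedBall {X : Type*} [MetricSpace X] (hX : IsCAT0 X) (x : X) (r : ℝ) :
    IsCAT0 (Metric.closedBall x r) := by
  apply hX.of_convex
  intro a ha b hb
  obtain ⟨γ, hγ⟩ := hX.1 a b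
  refine ⟨γ, hγ, fun t ht => ?_⟩
  rw [Metric.mem_closedBall, dist_comm] at ha hb ⊢
  exact hX.dist_le_of_geodesic ha hb hγ ht

/-- E3 -/
theorem IsCAT0.prod {X Y P : Type*} [MetricSpace X] [MetricSpace Y] [MetricSpace P]
    (hX : IsCAT0 X) (hY : IsCAT0 Y) (e : P ≃ X × Y)
    (he : ∀ p q, dist p q ^ 2 = dist (e p).1 (e q).1 ^ 2 + dist (e p).2 (e q).2 ^ 2) :
    IsCAT0 P := by
  choose γ₁ h₁ using hX.1
  choose γ₂ h₂ using hY.1
  refine isCAT0_of_bicombing
    (fun p q t => e.symm (γ₁ (e p).1 (e q).1 t, γ₂ (e p).2 (e q).2 t)) ?_ ?_ ?_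
  · intro x y
    simp only [(h₁ _ _).1, (h₂ _ _).1, Prod.mk.eta, Equiv.symm_apply_apply]
  · intro x y
    simp only [(h₁ _ _).2.1, (h₂ _ _).2.1, Prod.mk.eta, Equiv.symm_apply_apply]
  · intro p x y t ht
    rw [he, he, he, he]
    simp only [Equiv.apply_symm_apply]
    have a1 := hX.2 _ _ (e p).1 _ (h₁ (e x).1 (e y).1) t ht
    have a2 := hY.2 _ _ (e p).2 _ (h₂ (e x).2 (e y).2) t ht
    linarith

/-- E4 -/
theorem IsCAT0.radial {X : Type*} [MetricSpace X] (hX : IsCAT0 X) {p a x : X} {r : ℝ}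
    (hr : 0 ≤ r) (hx : dist x p ≤ r) (ha : r ≤ dist p a) (hpa : 0 < dist p a) {γ : ℝ → X}
    (hγ : IsGeodesic γ p a) : dist x (γ (r / dist p a)) ≤ dist x a := by
  have hs : r / dist p a ∈ Icc (0 : ℝ) 1 := ⟨by positivity, by rw [div_le_one hpa]; exact ha⟩
  have h := hX.2 p a x γ hγ _ hs
  set D := dist p a with hD
  set s := r / D with hsd
  have hrs : r = s * D := by rw [hsd]; field_simp
  have htri : D ≤ dist x p + dist x a := by
    have := dist_triangle p x a
    rwa [dist_comm p x] at this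
  set u := dist x p with hu
  set A := dist x a with hA
  have hu0 : 0 ≤ u := dist_nonneg
  have hA0 : 0 ≤ A := dist_nonneg
  have h0 := hs.1
  have h1 : 0 ≤ 1 - s := by linarith [hs.2]
  have huD : u ≤ D := hx.trans ha
  have k1 : (D - u) ^ 2 ≤ A ^ 2 := by
    have : 0 ≤ D - u := by linarith
    have : D - u ≤ A := by linarith
    gcongr
  have k2 : u ≤ s * D := by rw [← hrs]; exact hx
  have k3 : u ^ 2 ≤ A ^ 2 + s * D ^ 2 := by
    have : 2 * u ≤ D * (1 + s) := by nlinarith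
    have := mul_le_mul_of_nonneg_left this hpa.le
    nlinarith
  have k4 := mul_le_mul_of_nonneg_left k3 h1
  have k5 : dist x (γ s) ^ 2 ≤ A ^ 2 := by nlinarith
  exact (abs_le_of_sq_le_sq' k5 hA0).2

/-- Geodesic in a subset, from a geodesic of the ambient space with values in the subset. -/
theorem IsGeodesic.codRestrict {X : Type*} [MetricSpace X] {S : Set X} {γ : ℝ → X} {x y : X}
    (hγ : IsGeodesic γ x y) (hm : ∀ t ∈ Icc (0 : ℝ) 1, γ t ∈ S) (hx : x ∈ S) (hy : y ∈ S) :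
    ∃ γ' : ℝ → S, IsGeodesic γ' ⟨x, hx⟩ ⟨y, hy⟩ ∧ ∀ t ∈ Icc (0 : ℝ) 1, (γ' t : X) = γ t := by
  obtain ⟨h0, h1, hd⟩ := hγ
  let γ' : ℝ → S := fun s => ⟨γ (projIcc 0 1 zero_le_one s), hm _ (projIcc 0 1 zero_le_one s).2⟩
  have hval : ∀ s ∈ Icc (0 : ℝ) 1, (γ' s : X) = γ s := by
    intro s hs
    simp only [γ', projIcc_of_mem zero_le_one hs]
  refine ⟨γ', ⟨?_, ?_, ?_⟩, hval⟩
  · apply Subtype.ext
    rw [hval 0 ⟨le_rfl, zero_le_one⟩, h0]
  · apply Subtype.ext
    rw [hval 1 ⟨zero_le_one, le_rfl⟩, h1]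
  · intro s hs t ht
    rw [Subtype.dist_eq, Subtype.dist_eq, hval s hs, hval t ht]
    exact hd s hs t ht

/-- The CAT(0) inequality in a CAT(0) subset, with points of the ambient space. -/
theorem IsCAT0.ineq_of_mem {X : Type*} [MetricSpace X] {S : Set X} (hS : IsCAT0 S) {γ : ℝ → X}
    {x y p : X} (hγ : IsGeodesic γ x y) (hm : ∀ t ∈ Icc (0 : ℝ) 1, γ t ∈ S) (hp : p ∈ S) {t : ℝ}
    (ht : t ∈ Icc (0 : ℝ) 1) :
    dist p (γ t) ^ 2 ≤ (1 - t) * dist p x ^ 2 + t * dist p y ^ 2 - t * (1 - t) * dist x y ^ 2 := by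
  have hx : x ∈ S := by rw [← hγ.1]; exact hm 0 ⟨le_rfl, zero_le_one⟩
  have hy : y ∈ S := by rw [← hγ.2.1]; exact hm 1 ⟨zero_le_one, le_rfl⟩
  obtain ⟨γ', hγ', hval⟩ := hγ.codRestrict hm hx hy
  have := hS.2 _ _ ⟨p, hp⟩ _ hγ' t ht
  simpa only [Subtype.dist_eq, hval t ht] using this

/-- E5: local gluing. -/
theorem isCAT0_closedBall_of_glued {M : Type*} [MetricSpace M] {V W : Set M} (hVW : V ∪ W = univ)
    {p : M} (hpV : p ∈ V) (hpW : p ∈ W) {r : ℝ} (hr : 0 < r)
    (hV : IsCAT0 ↥(V ∩ Metric.closedBall p (3 * r)))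
    (hW : IsCAT0 ↥(W ∩ Metric.closedBall p (3 * r)))
    (hZ : ∀ x ∈ V ∩ W ∩ Metric.closedBall p (3 * r), ∀ y ∈ V ∩ W ∩ Metric.closedBall p (3 * r),
      ∃ γ : ℝ → M, IsGeodesic γ x y ∧ ∀ t ∈ Icc (0 : ℝ) 1, γ t ∈ V ∩ W)
    (hx : ∀ x ∈ V, ∀ y ∈ W, ∃ a ∈ V ∩ W, dist x y = dist x a + dist a y) :
    IsCAT0 (Metric.closedBall p r) := by
  have hr3 : r ≤ 3 * r := by linarith
  -- the part of the ball in `V` (or `W`) is CAT(0)
  have part : ∀ U : Set M, p ∈ U → IsCAT0 ↥(U ∩ Metric.closedBall p (3 * r)) →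
      IsCAT0 ↥({x : Metric.closedBall p r | (x : M) ∈ U}) := by
    intro U hpU hU
    have hp3 : p ∈ U ∩ Metric.closedBall p (3 * r) :=
      ⟨hpU, Metric.mem_closedBall_self (by linarith)⟩
    have h1 := hU.closedBall ⟨p, hp3⟩ r
    let e : ↥(Metric.closedBall (⟨p, hp3⟩ : ↥(U ∩ Metric.closedBall p (3 * r))) r) ≃
        ↥({x : Metric.closedBall p r | (x : M) ∈ U}) :=
      { toFun := fun x => ⟨⟨x.1.1, x.2⟩, x.1.2.1⟩
        invFun := fun x => ⟨⟨x.1.1, x.2, Metric.closedBall_subset_closedBall hr3 x.1.2⟩, x.1.2⟩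
        left_inv := fun x => rfl
        right_inv := fun x => rfl }
    exact h1.of_equiv e (Isometry.of_dist_eq fun x y => rfl)
  -- a geodesic of the intersection between points of the ball stays in the ball
  have stay : ∀ x ∈ V ∩ W, ∀ y ∈ V ∩ W, dist x p ≤ r → dist y p ≤ r → ∃ γ : ℝ → M,
      IsGeodesic γ x y ∧ ∀ t ∈ Icc (0 : ℝ) 1, γ t ∈ V ∩ W ∧ dist (γ t) p ≤ r := by
    intro x hx' y hy' hxr hyr
    obtain ⟨γ, hγ, hm⟩ := hZ x ⟨hx', by rw [Metric.mem_closedBall]; linarith⟩ y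
      ⟨hy', by rw [Metric.mem_closedBall]; linarith⟩
    refine ⟨γ, hγ, fun t ht => ⟨hm t ht, ?_⟩⟩
    have hxy : dist x y ≤ 2 * r := by
      have := dist_triangle x p y
      rw [dist_comm p y] at this
      linarith
    have hin : ∀ t ∈ Icc (0 : ℝ) 1, γ t ∈ V ∩ Metric.closedBall p (3 * r) := by
      intro t ht
      refine ⟨(hm t ht).1, ?_⟩
      rw [Metric.mem_closedBall]
      have h1 := hγ.2.2 0 ⟨le_rfl, zero_le_one⟩ t ht
      rw [hγ.1, zero_sub, abs_neg, abs_of_nonneg ht.1] at h1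
      have h2 := dist_triangle (γ t) x p
      rw [dist_comm (γ t) x] at h2
      have h3 : t * dist x y ≤ 2 * r := by
        have := @dist_nonneg _ _ x y
        nlinarith [ht.1, ht.2]
      linarith
    have h := hV.ineq_of_mem hγ hin (p := p) ⟨hpV, Metric.mem_closedBall_self (by linarith)⟩ ht
    rw [dist_comm p x, dist_comm p y, dist_comm p] at h
    have h0 := ht.1
    have h1 : 0 ≤ 1 - t := by linarith [ht.2]
    have h2 : dist x p ^ 2 ≤ r ^ 2 := by
      have := @dist_nonneg _ _ x p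
      gcongr
    have h3 : dist y p ^ 2 ≤ r ^ 2 := by
      have := @dist_nonneg _ _ y p
      gcongr
    have h4 := mul_le_mul_of_nonneg_left h2 h1
    have h5 := mul_le_mul_of_nonneg_left h3 h0
    have h6 : 0 ≤ t * (1 - t) * dist x y ^ 2 := by positivity
    have h7 : dist (γ t) p ^ 2 ≤ r ^ 2 := by nlinarith
    exact (abs_le_of_sq_le_sq' h7 hr.le).2
  refine Reshetnyak.isCAT0_union (Y₁ := {x : Metric.closedBall p r | (x : M) ∈ V})
    (Y₂ := {x : Metric.closedBall p r | (x : M) ∈ W}) ?_ (part V hpV hV) (part W hpW hW) ?_ ?_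
  · ext x
    have : (x : M) ∈ V ∪ W := by rw [hVW]; trivial
    simpa using this
  · rintro ⟨x, hxr⟩ ⟨hxV, hxW⟩ ⟨y, hyr⟩ ⟨hyV, hyW⟩
    obtain ⟨γ, hγ, hm⟩ := stay x ⟨hxV, hxW⟩ y ⟨hyV, hyW⟩ hxr hyr
    obtain ⟨γ', hγ', hval⟩ := hγ.codRestrict (S := Metric.closedBall p r)
      (fun t ht => (hm t ht).2) hxr hyr
    refine ⟨γ', hγ', fun t ht => ⟨?_, ?_⟩⟩
    · change (γ' t : M) ∈ V
      rw [hval t ht]; exact (hm t ht).1.1
    · change (γ' t : M) ∈ W
      rw [hval t ht]; exact (hm t ht).1.2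
  · rintro ⟨x, hxr⟩ hxV ⟨y, hyr⟩ hyW
    have hxV' : x ∈ V := hxV
    have hyW' : y ∈ W := hyW
    have hxr' : dist x p ≤ r := hxr
    have hyr' : dist y p ≤ r := hyr
    obtain ⟨a, ha, hxy⟩ := hx x hxV' y hyW'
    by_cases har : dist a p ≤ r
    · exact ⟨⟨a, har⟩, ⟨ha.1, ha.2⟩, hxy⟩
    · push Not at har
      have hxy2 : dist x y ≤ 2 * r := by
        have := dist_triangle x p y
        rw [dist_comm p y] at this
        linarith
      have ha3 : dist a p ≤ 3 * r := by
        have h1 := dist_triangle a x p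
        rw [dist_comm a x] at h1
        have h2 := @dist_nonneg _ _ a y
        linarith
      have hpa : 0 < dist p a := by rw [dist_comm]; linarith
      obtain ⟨γ, hγ, hm⟩ := hZ p ⟨⟨hpV, hpW⟩, Metric.mem_closedBall_self (by linarith)⟩ a ⟨ha, ha3⟩
      have hball : ∀ t ∈ Icc (0 : ℝ) 1, γ t ∈ Metric.closedBall p (3 * r) := by
        intro t ht
        rw [Metric.mem_closedBall, dist_comm]
        have h1 := hγ.2.2 0 ⟨le_rfl, zero_le_one⟩ t ht
        rw [hγ.1, zero_sub, abs_neg, abs_of_nonneg ht.1] at h1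
        rw [h1, dist_comm p a]
        have := @dist_nonneg _ _ a p
        nlinarith [ht.1, ht.2]
      have hs : r / dist p a ∈ Icc (0 : ℝ) 1 :=
        ⟨by positivity, by rw [div_le_one hpa, dist_comm]; exact har.le⟩
      -- radial projection in one of the pieces
      have proj : ∀ U : Set M, p ∈ U → IsCAT0 ↥(U ∩ Metric.closedBall p (3 * r)) →
          (∀ t ∈ Icc (0 : ℝ) 1, γ t ∈ U) → ∀ z ∈ U, dist z p ≤ r →
          dist z (γ (r / dist p a)) ≤ dist z a := by
        intro U hpU hU hmU z hz hzr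
        have hp3 : p ∈ U ∩ Metric.closedBall p (3 * r) :=
          ⟨hpU, Metric.mem_closedBall_self (by linarith)⟩
        have ha3' : a ∈ U ∩ Metric.closedBall p (3 * r) := by
          refine ⟨?_, ha3⟩
          rw [← hγ.2.1]
          exact hmU 1 ⟨zero_le_one, le_rfl⟩
        have hz3 : z ∈ U ∩ Metric.closedBall p (3 * r) :=
          ⟨hz, by rw [Metric.mem_closedBall]; linarith⟩
        obtain ⟨γ', hγ', hval⟩ := hγ.codRestrict (S := U ∩ Metric.closedBall p (3 * r))
          (fun t ht => ⟨hmU t ht, hball t ht⟩) hp3 ha3'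
        have h1 := hU.radial (p := ⟨p, hp3⟩) (a := ⟨a, ha3'⟩) (x := ⟨z, hz3⟩) (r := r) hr.le hzr
          (by rw [Subtype.dist_eq, dist_comm]; exact har.le) hpa hγ'
        simp only [Subtype.dist_eq] at h1
        rw [hval _ hs] at h1
        exact h1
      have e1 := proj V hpV hV (fun t ht => (hm t ht).1) x hxV' hxr'
      have e2 := proj W hpW hW (fun t ht => (hm t ht).2) y hyW' hyr'
      set b := γ (r / dist p a) with hb
      have hbp : dist b p ≤ r := by
        have h1 := hγ.2.2 0 ⟨le_rfl, zero_le_one⟩ _ hs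
        rw [hγ.1, zero_sub, abs_neg, abs_of_nonneg hs.1] at h1
        rw [dist_comm, hb, h1]
        rw [div_mul_cancel₀ _ hpa.ne']
      refine ⟨⟨b, hbp⟩, ⟨(hm _ hs).1, (hm _ hs).2⟩, ?_⟩
      change dist x y = dist x b + dist b y
      refine le_antisymm (dist_triangle _ _ _) ?_
      rw [hxy, dist_comm b y, dist_comm a y]
      linarith

/-- E7: quotient of a metric space by a group of isometries with displacement bounded below. -/
theorem exists_quotient_metric {X : Type*} [MetricSpace X] (s : Setoid X) {G : Type*} [Group G]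
    [MulAction G X] (hs : ∀ x y, s.r x y ↔ ∃ g : G, g • x = y)
    (hiso : ∀ (g : G) (x y : X), dist (g • x) (g • y) = dist x y) {ε : ℝ} (hε : 0 < ε)
    (hdisp : ∀ g : G, (∀ x : X, g • x = x) ∨ ∀ x : X, ε ≤ dist x (g • x)) :
    ∃ m : MetricSpace (Quotient s),
      (∀ x y : X, m.dist (Quotient.mk s x) (Quotient.mk s y) ≤ dist x y) ∧
      (∀ x y : X, dist x y < ε / 2 → m.dist (Quotient.mk s x) (Quotient.mk s y) = dist x y) ∧
      (∀ x y : X, m.dist (Quotient.mk s x) (Quotient.mk s y) < ε / 2 → ∃ g : G,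
        m.dist (Quotient.mk s x) (Quotient.mk s y) = dist x (g • y)) := by
  set D : X → X → ℝ := fun x y => ⨅ g : G, dist x (g • y) with hD
  have hbdd : ∀ x y : X, BddBelow (range fun g : G => dist x (g • y)) := fun x y =>
    ⟨0, by rintro _ ⟨g, rfl⟩; exact dist_nonneg⟩
  have hle : ∀ (x y : X) (g : G), D x y ≤ dist x (g • y) := fun x y g => ciInf_le (hbdd x y) g
  have hge : ∀ (x y : X) (c : ℝ), (∀ g : G, c ≤ dist x (g • y)) → c ≤ D x y := fun x y c h =>
    le_ciInf h
  have hlt : ∀ (x y : X) (c : ℝ), D x y < c → ∃ g : G, dist x (g • y) < c := fun x y c h =>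
    exists_lt_of_ciInf_lt h
  have hinv : ∀ (g : G) (x y : X), dist x (g • y) = dist (g⁻¹ • x) y := by
    intro g x y
    rw [← hiso g (g⁻¹ • x) y, smul_inv_smul]
  have hsymm : ∀ x y, D x y = D y x := by
    have : ∀ x y, D x y ≤ D y x := by
      intro x y
      refine hge _ _ _ fun g => ?_
      have := hle x y g⁻¹
      rwa [hinv, inv_inv, dist_comm] at this
    exact fun x y => le_antisymm (this x y) (this y x)
  have htri : ∀ x y z, D x z ≤ D x y + D y z := by
    intro x y z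
    refine le_of_forall_pos_le_add fun δ hδ => ?_
    obtain ⟨g, hg⟩ := hlt x y (D x y + δ / 2) (by linarith)
    obtain ⟨h, hh⟩ := hlt y z (D y z + δ / 2) (by linarith)
    have h1 := hle x z (g * h)
    have h2 := dist_triangle x (g • y) ((g * h) • z)
    rw [mul_smul, hiso] at h2
    rw [mul_smul] at h1
    linarith
  have hself : ∀ x, D x x = 0 := by
    intro x
    refine le_antisymm ?_ (hge _ _ _ fun g => dist_nonneg)
    have := hle x x 1
    simpa using this
  have hnn : ∀ x y, 0 ≤ D x y := fun x y => hge _ _ _ fun g => dist_nonneg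
  -- the infimum is attained when it is small
  have hatt : ∀ (x y : X) (g : G), dist x (g • y) < ε / 2 → D x y = dist x (g • y) := by
    intro x y g hg
    refine le_antisymm (hle x y g) (hge _ _ _ fun h => ?_)
    rcases hdisp (g⁻¹ * h) with htriv | hd
    · have : h • y = g • y := by
        have := htriv y
        rw [mul_smul] at this
        rw [← this, smul_inv_smul, this]
      rw [this]
    · have h1 := hd y
      rw [← hiso g y, smul_smul, mul_inv_cancel_left] at h1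
      have h2 := dist_triangle (g • y) x (h • y)
      rw [dist_comm (g • y) x] at h2
      linarith
  have hzero : ∀ x y, D x y = 0 → ∃ g : G, x = g • y := by
    intro x y h
    obtain ⟨g, hg⟩ := hlt x y (ε / 2) (by rw [h]; positivity)
    have h1 := hatt x y g hg
    rw [h] at h1
    exact ⟨g, dist_eq_zero.1 h1.symm⟩
  have hleft : ∀ (g : G) (x y : X), D (g • x) y = D x y := by
    intro g x y
    have h0 : D (g • x) x = 0 := by
      refine le_antisymm ?_ (hnn _ _)
      have := hle (g • x) x g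
      simpa using this
    refine le_antisymm ?_ ?_
    · have := htri (g • x) x y
      linarith
    · have := htri x (g • x) y
      rw [hsymm x (g • x)] at this
      linarith
  have hwd : ∀ x y x' y', s.r x x' → s.r y y' → D x y = D x' y' := by
    intro x y x' y' h1 h2
    obtain ⟨g, rfl⟩ := (hs _ _).1 h1
    obtain ⟨h, rfl⟩ := (hs _ _).1 h2
    rw [hleft, hsymm x (h • y), hleft, hsymm]
  let m : MetricSpace (Quotient s) :=
    { dist := Quotient.lift₂ D fun a b a' b' h1 h2 => hwd a b a' b' h1 h2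
      dist_self := by
        intro x
        induction x using Quotient.ind
        exact hself _
      dist_comm := by
        intro x y
        induction x using Quotient.ind
        induction y using Quotient.ind
        exact hsymm _ _
      dist_triangle := by
        intro x y z
        induction x using Quotient.ind
        induction y using Quotient.ind
        induction z using Quotient.ind
        exact htri _ _ _
      eq_of_dist_eq_zero := by
        intro x y
        induction x using Quotient.ind with | _ x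
        induction y using Quotient.ind with | _ y
        intro h
        obtain ⟨g, hg⟩ := hzero x y h
        refine Quotient.sound ((hs _ _).2 ⟨g⁻¹, ?_⟩)
        rw [hg, inv_smul_smul] }
  have hm : ∀ x y : X, m.dist (Quotient.mk s x) (Quotient.mk s y) = D x y := fun _ _ => rfl
  refine ⟨m, ?_, ?_, ?_⟩
  · intro x y
    rw [hm]
    have := hle x y 1
    simpa using this
  · intro x y h
    rw [hm]
    have := hatt x y 1 (by simpa using h)
    simpa using this
  · intro x y h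
    rw [hm] at h ⊢
    obtain ⟨g, hg⟩ := hlt x y (ε / 2) h
    exact ⟨g, hatt x y g hg⟩

end Pool.Agent.Work.MP_f0c219_gt
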