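import Pool.Agent.Work.MP_f0c219_gt.Defs
import Pool.Agent.Work.MP_f0c219_gt_h31.D2

/-!
# Invariance of the hyperbolic distance under `SL(2, ℂ)`
-/

open Set Topology
open scoped ComplexConjugate

namespace Pool.Agent.Work.MP_f0c219_gt.TruncHyp

theorem trace_herm (p q : H3) : ((2 * hC p.1 q.1 : ℝ) : ℂ) =
    Matrix.trace ((herm p).adjugate * herm q) := by
  have ht : (p.1.2 : ℂ) ≠ 0 := by exact_mod_cast p.2.ne'
  have hs : (q.1.2 : ℂ) ≠ 0 := by exact_mod_cast q.2.ne'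
  have hn : ((‖p.1.1 - q.1.1‖ ^ 2 : ℝ) : ℂ) = (conj p.1.1 - conj q.1.1) * (p.1.1 - q.1.1) := by
    rw [← Complex.normSq_eq_norm_sq, Complex.normSq_eq_conj_mul_self, map_sub]
  rw [Matrix.adjugate_fin_two, Matrix.trace_fin_two]
  simp only [hC, herm, Matrix.mul_apply, Fin.sum_univ_two, Matrix.of_apply, Matrix.cons_val',
    Matrix.cons_val_zero, Matrix.cons_val_one, Matrix.cons_val_fin_one]
  have e : ((2 * ((‖p.1.1 - q.1.1‖ ^ 2 + p.1.2 ^ 2 + q.1.2 ^ 2) / (2 * p.1.2 * q.1.2)) : ℝ) : ℂ) =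
      ((‖p.1.1 - q.1.1‖ ^ 2 : ℝ) + (p.1.2 : ℂ) ^ 2 + (q.1.2 : ℂ) ^ 2) / (p.1.2 * q.1.2) := by
    push_cast
    field_simp
  rw [e, hn]
  push_cast
  simp only [Complex.normSq_eq_conj_mul_self]
  field_simp
  ring

/-- The hyperbolic distance is invariant under `SL(2, ℂ)`. -/
theorem hC_smul (g : SL2C) (p q : H3) : hC (g • p).1 (g • q).1 = hC p.1 q.1 := by
  have h1 := trace_herm (g • p) (g • q)
  have h2 := trace_herm p q
  have hdet : (g : Matrix (Fin 2) (Fin 2) ℂ).det = 1 := g.det_coe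
  have hg : (g : Matrix (Fin 2) (Fin 2) ℂ).adjugate * (g : Matrix (Fin 2) (Fin 2) ℂ) = 1 := by
    rw [Matrix.adjugate_mul, hdet, one_smul]
  have hg' : (g : Matrix (Fin 2) (Fin 2) ℂ).conjTranspose *
      (g : Matrix (Fin 2) (Fin 2) ℂ).conjTranspose.adjugate = 1 := by
    rw [Matrix.mul_adjugate, Matrix.det_conjTranspose, hdet, star_one, one_smul]
  rw [smul_def, smul_def, herm_mob, herm_mob, Matrix.adjugate_mul_distrib,
    Matrix.adjugate_mul_distrib] at h1
  have h3 : Matrix.trace ((g : Matrix (Fin 2) (Fin 2) ℂ).conjTranspose.adjugate *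
      ((herm p).adjugate * (g : Matrix (Fin 2) (Fin 2) ℂ).adjugate) *
      ((g : Matrix (Fin 2) (Fin 2) ℂ) * herm q *
        (g : Matrix (Fin 2) (Fin 2) ℂ).conjTranspose)) =
      Matrix.trace ((herm p).adjugate * herm q) := by
    rw [Matrix.mul_assoc, Matrix.trace_mul_comm]
    congr 1
    calc _ = (herm p).adjugate * ((g : Matrix (Fin 2) (Fin 2) ℂ).adjugate *
          (g : Matrix (Fin 2) (Fin 2) ℂ)) * herm q *
          ((g : Matrix (Fin 2) (Fin 2) ℂ).conjTranspose *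
          (g : Matrix (Fin 2) (Fin 2) ℂ).conjTranspose.adjugate) := by
            simp only [Matrix.mul_assoc]
      _ = _ := by rw [hg, hg', Matrix.mul_one, Matrix.mul_one]
  rw [h3, ← h2] at h1
  have h4 : 2 * hC (mob g p).1 (mob g q).1 = 2 * hC p.1 q.1 := by exact_mod_cast h1
  change hC (mob g p).1 (mob g q).1 = hC p.1 q.1
  linarith

end Pool.Agent.Work.MP_f0c219_gt.TruncHyp
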