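import Pool.Agent.Work.MP_f0c219_gt.Model

/-!
# Block T: the covering space of the interior piece (common definitions)

`Xs = VP × ℝ`, where `VP` is hyperbolic space minus the open horoballs that are not glued.
-/

open Set Topology
open scoped ComplexConjugate

namespace Pool.Agent.Work.MP_f0c219_gt.Model

open Borromean

/-- The cusp `γ ∞` is not equivalent to `∞` under the group. -/
def Unglued (γ : SL2Gi) : Prop := ∀ g, InGam g → (γ⁻¹ * g) 1 0 ≠ 0

theorem Unglued.mul {γ g : SL2Gi} (h : Unglued γ) (hg : InGam g) : Unglued (g * γ) := by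
  intro g' hg'
  have h1 := h (g⁻¹ * g') (inGam_mul (inGam_inv hg) hg')
  rwa [mul_inv_rev, mul_assoc]

theorem Unglued.inv_c {γ : SL2Gi} (h : Unglued γ) : γ⁻¹ 1 0 ≠ 0 := by
  have := h 1 inGam_one
  rwa [mul_one] at this

/-- Hyperbolic space minus the open unglued horoballs, as a set. -/
def VPset : Set H3 := {q | ∀ γ : SL2Gi, Unglued γ → ((toC γ)⁻¹ • q).1.2 ≤ 16}

/-- Hyperbolic space minus the open unglued horoballs. -/
def VP : Type := ↥VPset

instance : TopologicalSpace VP := inferInstanceAs (TopologicalSpace ↥VPset)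

/-- The covering space of the piece, with the glued cusp not truncated. -/
def Xs : Type := VP × ℝ

instance : TopologicalSpace Xs := inferInstanceAs (TopologicalSpace (VP × ℝ))

theorem VPset_perm {σ : Equiv.Perm H3} (hσ : σ ∈ PG) {q : H3} (hq : q ∈ VPset) :
    σ q ∈ VPset := by
  obtain ⟨g, hg, h⟩ := mem_PG.1 hσ
  intro γ hγ
  have h1 := hq (g⁻¹ * γ) (hγ.mul (inGam_inv hg))
  rw [h]
  rwa [map_mul, map_inv, mul_inv_rev, inv_inv, mul_smul] at h1

/-- The action of `Γ × ℤ`. -/
noncomputable instance : MulAction VG Xs where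
  smul a x := (⟨a.1.1 x.1.1, VPset_perm a.1.2 x.1.2⟩, x.2 + (a.2.toAdd : ℝ))
  one_smul x := by
    apply Prod.ext
    · rfl
    · change x.2 + (((1 : Multiplicative ℤ).toAdd : ℤ) : ℝ) = x.2
      simp
  mul_smul a b x := by
    apply Prod.ext
    · rfl
    · change x.2 + (((a.2 * b.2).toAdd : ℤ) : ℝ) = x.2 + (b.2.toAdd : ℝ) + (a.2.toAdd : ℝ)
      rw [toAdd_mul]
      push_cast
      ring

theorem smul_fst (a : VG) (x : Xs) : (a • x).1.1 = a.1.1 x.1.1 := rfl

theorem smul_snd (a : VG) (x : Xs) : (a • x).2 = x.2 + (a.2.toAdd : ℝ) := rfl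

theorem continuous_perm {σ : Equiv.Perm H3} (hσ : σ ∈ PG) : Continuous σ := by
  obtain ⟨g, -, h⟩ := mem_PG.1 hσ
  have : (σ : H3 → H3) = fun q => toC g • q := funext h
  rw [this]
  exact continuous_smul _

instance : ContinuousConstSMul VG Xs where
  continuous_const_smul a := by
    refine Continuous.prodMk ?_ ?_
    · refine Continuous.subtype_mk ?_ _
      exact (continuous_perm a.1.2).comp (continuous_subtype_val.comp continuous_fst)
    · exact continuous_snd.add continuous_const

end Pool.Agent.Work.MP_f0c219_gt.Model
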