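import Pool.Agent.Work.MP_f0c219_gt_h82.TopoDefs

/-!
# Block T, part T1 (simply connected) and T3 (properly discontinuous)
-/

open Set Topology
open scoped ComplexConjugate

namespace Pool.Agent.Work.MP_f0c219_gt.Model

open Borromean

/-! ## T3 -/

theorem neg_one_smul_H3 (q : H3) : (-1 : SL2C) • q = q := by
  apply herm_injective
  rw [smul_def, herm_mob]
  simp

theorem perm_eq_one {σ : Equiv.Perm H3} (hσ : σ ∈ PG) {q : H3} (h : σ q = q) : σ = 1 := by
  obtain ⟨g, hg, hg'⟩ := mem_PG.1 hσ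
  rw [hg'] at h
  ext1 r
  rw [hg', Equiv.Perm.one_apply]
  rcases gam_free hg q h with h1 | h1
  · rw [h1, one_smul]
  · rw [h1, neg_one_smul_H3]

theorem isOpenEmbedding_H3 : IsOpenEmbedding (Subtype.val : H3 → ℂ × ℝ) :=
  (isOpen_lt continuous_const continuous_snd).isOpenEmbedding_subtypeVal

instance : LocallyCompactSpace H3 := isOpenEmbedding_H3.locallyCompactSpace

theorem exists_nhds_H3 (q : H3) : ∃ U ∈ 𝓝 q, ∀ σ ∈ PG, ((σ '' U) ∩ U).Nonempty → σ = 1 := by
  obtain ⟨K, hK, hqK⟩ := exists_compact_mem_nhds q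
  have hfin := finite_meet hK
  have hU : ∀ γ : SL2Gi, ∃ U ∈ 𝓝 q, toC γ • q = q ∨ ∀ u ∈ U, toC γ • u ∉ U := by
    intro γ
    by_cases h : toC γ • q = q
    · exact ⟨univ, Filter.univ_mem, Or.inl h⟩
    · obtain ⟨A, B, hA, hB, hqA, hqB, hAB⟩ := t2_separation h
      refine ⟨B ∩ (fun u : H3 => toC γ • u) ⁻¹' A, Filter.inter_mem (hB.mem_nhds hqB)
        ((hA.preimage (continuous_smul _)).mem_nhds hqA), Or.inr ?_⟩
      rintro u ⟨-, hu⟩ ⟨hu', -⟩
      exact Set.disjoint_left.1 hAB hu hu'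
  choose U hU hU' using hU
  refine ⟨K ∩ ⋂ γ ∈ {γ : SL2Gi | (((fun q => toC γ • q) '' K) ∩ K).Nonempty}, U γ,
    Filter.inter_mem hqK ((Filter.biInter_mem hfin).2 fun γ _ => hU γ), ?_⟩
  rintro σ hσ ⟨_, ⟨u, hu, rfl⟩, hu'⟩
  obtain ⟨g, hg, hg'⟩ := mem_PG.1 hσ
  have h1 : g ∈ {γ : SL2Gi | (((fun q => toC γ • q) '' K) ∩ K).Nonempty} :=
    ⟨toC g • u, ⟨u, hu.1, rfl⟩, by rw [← hg']; exact hu'.1⟩
  have h2 : u ∈ U g := mem_iInter₂.1 hu.2 g h1
  have h3 : toC g • u ∈ U g := by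
    rw [← hg']
    exact mem_iInter₂.1 hu'.2 g h1
  rcases hU' g with h | h
  · exact perm_eq_one hσ (q := q) (by rw [hg', h])
  · exact absurd h3 (h u h2)

/-- T3 -/
theorem hA_Xs (x : Xs) : ∃ U ∈ 𝓝 x, ∀ a : VG, ((a • ·) '' U ∩ U).Nonempty → a = 1 := by
  obtain ⟨U, hU, hU'⟩ := exists_nhds_H3 x.1.1
  have hV : {y : Xs | y.1.1 ∈ U ∧ |y.2 - x.2| < 1 / 2} ∈ 𝓝 x := by
    have c1 : Continuous (fun y : Xs => y.1.1) := continuous_subtype_val.comp continuous_fst
    have c2 : Continuous (fun y : Xs => |y.2 - x.2|) :=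
      (continuous_snd.sub continuous_const).abs
    refine Filter.inter_mem (c1.continuousAt.preimage_mem_nhds hU)
      ((isOpen_lt c2 continuous_const).mem_nhds ?_)
    change |x.2 - x.2| < 1 / 2
    norm_num
  refine ⟨_, hV, ?_⟩
  rintro a ⟨_, ⟨u, ⟨hu1, hu2⟩, rfl⟩, ⟨hu3, hu4⟩⟩
  simp only [smul_fst, smul_snd] at hu3 hu4
  have h1 : a.1.1 = 1 := hU' a.1.1 a.1.2 ⟨_, ⟨_, hu1, rfl⟩, hu3⟩
  have h2 : |(a.2.toAdd : ℝ)| < 1 := by
    have : (a.2.toAdd : ℝ) = (u.2 + (a.2.toAdd : ℝ) - x.2) - (u.2 - x.2) := by ring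
    rw [this]
    refine (abs_sub _ _).trans_lt ?_
    linarith
  have h3 : |a.2.toAdd| < 1 := by exact_mod_cast h2
  have h4 : a.2.toAdd = 0 := Int.abs_lt_one_iff.1 h3
  apply Prod.ext
  · exact Subtype.ext h1
  · exact h4

/-! ## T1 -/

/-- Comparison of heights at nearby points. -/
theorem height_le_of_near (g : SL2C) {q q₀ : H3} (hz : Complex.normSq (q₀.1.1 - q.1.1) ≤ q₀.1.2 ^ 2 / 4)
    (h1 : q₀.1.2 ≤ 2 * q.1.2) (h2 : q.1.2 ≤ 2 * q₀.1.2) :
    (g • q).1.2 ≤ 12 * (g • q₀).1.2 := by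
  have ht : 0 < q.1.2 := q.2
  have ht0 : 0 < q₀.1.2 := q₀.2
  have hd := den_pos g q
  have hd0 := den_pos g q₀
  have key : den g q₀ ≤ 6 * den g q := by
    unfold den
    set A := g 1 0 * q.1.1 + g 1 1 with hA
    set B := g 1 0 * (q₀.1.1 - q.1.1) with hB
    have e1 : g 1 0 * q₀.1.1 + g 1 1 = A + B := by rw [hA, hB]; ring
    have e2 : Complex.normSq (A + B) ≤ 2 * Complex.normSq A + 2 * Complex.normSq B := by
      have := Complex.normSq_nonneg (A - B)
      have h3 := Complex.normSq_add A B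
      have h4 := Complex.normSq_sub A B
      linarith
    have e3 : Complex.normSq B ≤ Complex.normSq (g 1 0) * (q₀.1.2 ^ 2 / 4) := by
      rw [hB, Complex.normSq_mul]
      exact mul_le_mul_of_nonneg_left hz (Complex.normSq_nonneg _)
    rw [e1]
    have hc := Complex.normSq_nonneg (g 1 0)
    have hA0 := Complex.normSq_nonneg A
    have e4 : q₀.1.2 ^ 2 ≤ 4 * q.1.2 ^ 2 := by nlinarith
    nlinarith [mul_le_mul_of_nonneg_left e4 hc]
  rw [smul_height, smul_height, div_le_iff₀ hd, mul_div_assoc', div_mul_eq_mul_div, le_div_iff₀ hd0]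
  nlinarith [mul_le_mul h2 key hd0.le (by positivity)]

theorem eventually_height_le (q₀ : H3) : ∀ᶠ q : H3 in 𝓝 q₀, ∀ g : SL2C,
    (g • q).1.2 ≤ 12 * (g • q₀).1.2 := by
  have ht0 : 0 < q₀.1.2 := q₀.2
  have c1 : Continuous (fun q : H3 => Complex.normSq (q₀.1.1 - q.1.1)) :=
    Complex.continuous_normSq.comp (by fun_prop)
  have c2 : Continuous (fun q : H3 => 2 * q.1.2) := by fun_prop
  have c3 : Continuous (fun q : H3 => q.1.2) := by fun_prop
  have h1 : ∀ᶠ q : H3 in 𝓝 q₀, Complex.normSq (q₀.1.1 - q.1.1) < q₀.1.2 ^ 2 / 4 :=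
    (isOpen_lt c1 continuous_const).mem_nhds (by
      change Complex.normSq (q₀.1.1 - q₀.1.1) < q₀.1.2 ^ 2 / 4
      rw [sub_self, map_zero]
      positivity)
  have h2 : ∀ᶠ q : H3 in 𝓝 q₀, q₀.1.2 < 2 * q.1.2 :=
    (isOpen_lt continuous_const c2).mem_nhds (by
      change q₀.1.2 < 2 * q₀.1.2
      linarith)
  have h3 : ∀ᶠ q : H3 in 𝓝 q₀, q.1.2 < 2 * q₀.1.2 :=
    (isOpen_lt c3 continuous_const).mem_nhds (by
      change q₀.1.2 < 2 * q₀.1.2
      linarith)
  filter_upwards [h1, h2, h3] with q k1 k2 k3 g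
  exact height_le_of_near g k1.le k2.le k3.le

/-- Push a point down to height at most sixteen. -/
noncomputable def cap (q : H3) : H3 := ⟨(q.1.1, min q.1.2 16), lt_min q.2 (by norm_num)⟩

theorem continuous_cap : Continuous cap := by
  refine Continuous.subtype_mk ?_ _
  fun_prop

theorem cap_height (q : H3) : (cap q).1.2 = min q.1.2 16 := rfl

theorem cap_of_le {q : H3} (h : q.1.2 ≤ 16) : cap q = q :=
  Subtype.ext (Prod.ext rfl (min_eq_left h))

theorem cap_smul {δ : SL2Gi} (hc : δ 1 0 = 0) (q : H3) : cap (toC δ • q) = toC δ • cap q := by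
  have h1 := den_of_c_eq_zero hc q
  have h2 := den_of_c_eq_zero hc (cap q)
  apply Subtype.ext
  apply Prod.ext
  · change (toC δ • q).1.1 = (toC δ • cap q).1.1
    rw [smul_z, smul_z, h1, h2]
    simp only [toC_entry, hc, map_zero, mul_zero, zero_mul, zero_add, add_zero, cap]
  · change min (toC δ • q).1.2 16 = (toC δ • cap q).1.2
    rw [height_of_c_eq_zero hc, height_of_c_eq_zero hc]
    rfl

/-- Push a point down in the horoball at `γ ∞`. -/
noncomputable def push (γ : SL2Gi) (q : H3) : H3 := toC γ • cap ((toC γ)⁻¹ • q)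

theorem continuous_push (γ : SL2Gi) : Continuous (push γ) :=
  (continuous_smul _).comp (continuous_cap.comp (continuous_smul _))

theorem push_eq {γ γ' : SL2Gi} (h : (γ⁻¹ * γ') 1 0 = 0) (q : H3) : push γ q = push γ' q := by
  unfold push
  have e1 : (toC γ)⁻¹ • q = toC (γ⁻¹ * γ') • ((toC γ')⁻¹ • q) := by
    rw [← mul_smul, map_mul, map_inv, mul_assoc, mul_inv_cancel, mul_one]
  rw [e1, cap_smul h, ← mul_smul, ← map_mul, mul_inv_cancel_left]

theorem push_of_le {γ : SL2Gi} {q : H3} (h : ((toC γ)⁻¹ • q).1.2 ≤ 16) : push γ q = q := by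
  unfold push
  rw [cap_of_le h, smul_inv_smul]

/-- Two cusps at which a point has height greater than one are equal. -/
theorem eq_cusp {γ γ' : SL2Gi} {q : H3} (h : 1 < ((toC γ)⁻¹ • q).1.2)
    (h' : 1 < ((toC γ')⁻¹ • q).1.2) : (γ⁻¹ * γ') 1 0 = 0 := by
  refine c_eq_zero_of_height (q := (toC γ')⁻¹ • q) h' ?_
  rw [← mul_smul, map_mul, map_inv, mul_assoc, mul_inv_cancel, mul_one]
  exact h

open Classical in
/-- The retraction onto `VP`. -/
noncomputable def ret (q : H3) : H3 :=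
  if h : ∃ γ, Unglued γ ∧ 16 < ((toC γ)⁻¹ • q).1.2 then push (Classical.choose h) q else q

theorem ret_eq_push {γ : SL2Gi} (hγ : Unglued γ) {q : H3} (h : 1 < ((toC γ)⁻¹ • q).1.2) :
    ret q = push γ q := by
  unfold ret
  split_ifs with h1
  · obtain ⟨h2, h3⟩ := Classical.choose_spec h1
    exact push_eq (eq_cusp (by linarith) h) q
  · rw [push_of_le]
    by_contra h2
    push Not at h2
    exact h1 ⟨γ, hγ, h2⟩

theorem ret_of_mem {q : H3} (h : q ∈ VPset) : ret q = q := by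
  unfold ret
  rw [dif_neg]
  rintro ⟨γ, hγ, h1⟩
  exact absurd (h γ hγ) (not_le.2 h1)

theorem ret_mem (q : H3) : ret q ∈ VPset := by
  by_cases h : ∃ γ, Unglued γ ∧ 16 < ((toC γ)⁻¹ • q).1.2
  · obtain ⟨γ, hγ, h1⟩ := h
    rw [ret_eq_push hγ (by linarith)]
    intro γ' hγ'
    have e1 : (toC γ')⁻¹ • push γ q = toC (γ'⁻¹ * γ) • cap ((toC γ)⁻¹ • q) := by
      unfold push
      rw [← mul_smul, map_mul, map_inv]
    have e2 : (cap ((toC γ)⁻¹ • q)).1.2 = 16 := by
      rw [cap_height, min_eq_right h1.le]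
    rw [e1]
    by_cases hc : (γ'⁻¹ * γ) 1 0 = 0
    · rw [height_of_c_eq_zero hc, e2]
    · have := height_of_c_ne_zero hc (cap ((toC γ)⁻¹ • q))
      rw [e2] at this
      linarith
  · intro γ hγ
    have e1 : ret q = q := by
      unfold ret
      rw [dif_neg h]
    rw [e1]
    by_contra h2
    push Not at h2
    exact h ⟨γ, hγ, h2⟩

theorem continuous_ret : Continuous ret := by
  rw [continuous_iff_continuousAt]
  intro q₀
  by_cases h : ∃ γ, Unglued γ ∧ 1 < ((toC γ)⁻¹ • q₀).1.2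
  · obtain ⟨γ, hγ, h1⟩ := h
    have c1 : Continuous (fun q : H3 => ((toC γ)⁻¹ • q).1.2) :=
      (continuous_snd.comp continuous_subtype_val).comp (continuous_smul _)
    have h2 : ∀ᶠ q : H3 in 𝓝 q₀, 1 < ((toC γ)⁻¹ • q).1.2 :=
      (isOpen_lt continuous_const c1).mem_nhds h1
    refine (continuous_push γ).continuousAt.congr ?_
    filter_upwards [h2] with q hq
    exact (ret_eq_push hγ hq).symm
  · push Not at h
    refine continuousAt_id.congr ?_
    filter_upwards [eventually_height_le q₀] with q hq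
    refine (ret_of_mem ?_).symm
    intro γ hγ
    have h1 := hq (toC γ)⁻¹
    have h2 := h γ hγ
    change ((toC γ)⁻¹ • q).1.2 ≤ 16
    linarith

theorem simplyConnectedSpace_of_retract {X Y : Type*} [TopologicalSpace X] [TopologicalSpace Y]
    [SimplyConnectedSpace Y] (i : X → Y) (hi : Continuous i) (r : Y → X) (hr : Continuous r)
    (h : ∀ x, r (i x) = x) : SimplyConnectedSpace X := by
  rw [simply_connected_iff_paths_homotopic']
  have hsurj : Function.Surjective r := fun x => ⟨i x, h x⟩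
  refine ⟨hsurj.pathConnectedSpace hr, ?_⟩
  intro x y p₁ p₂
  have h1 : (p₁.map hi).Homotopic (p₂.map hi) := SimplyConnectedSpace.paths_homotopic _ _
  have h2 := h1.map ⟨r, hr⟩
  have h3 := h2.pathCast (h x).symm (h y).symm
  have e : ∀ p : Path x y, ((p.map hi).map (ContinuousMap.continuous ⟨r, hr⟩)).cast (h x).symm
      (h y).symm = p := by
    intro p
    ext t
    exact h _
  rw [← e p₁, ← e p₂]
  exact h3

/-- T1 -/
instance simplyConnectedSpace_Xs : SimplyConnectedSpace Xs := by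
  let C : Set ((ℂ × ℝ) × ℝ) := {p | 0 < p.1.2}
  have hC : Convex ℝ C := by
    intro p hp p' hp' a b ha hb hab
    change 0 < a * p.1.2 + b * p'.1.2
    have h1 : 0 < p.1.2 := hp
    have h2 : 0 < p'.1.2 := hp'
    rcases ha.lt_or_eq with h3 | h3
    · have := mul_pos h3 h1
      have := mul_nonneg hb h2.le
      linarith
    · have hb1 : b = 1 := by linarith
      rw [← h3, hb1]
      linarith
  have hne : C.Nonempty := ⟨((0, 1), 0), (one_pos : (0 : ℝ) < 1)⟩
  have : ContractibleSpace C := hC.contractibleSpace hne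
  refine simplyConnectedSpace_of_retract (Y := C) (fun x => ⟨(x.1.1.1, x.2), x.1.1.2⟩) ?_
    (fun p => (⟨ret ⟨p.1.1, p.2⟩, ret_mem _⟩, p.1.2)) ?_ ?_
  · refine Continuous.subtype_mk ?_ _
    exact (continuous_subtype_val.comp (continuous_subtype_val.comp continuous_fst)).prodMk
      continuous_snd
  · refine Continuous.prodMk ?_ (continuous_snd.comp continuous_subtype_val)
    refine Continuous.subtype_mk ?_ _
    refine continuous_ret.comp ?_
    exact Continuous.subtype_mk (continuous_fst.comp continuous_subtype_val) _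
  · intro x
    apply Prod.ext
    · exact Subtype.ext (ret_of_mem x.1.2)
    · rfl

end Pool.Agent.Work.MP_f0c219_gt.Model
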