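import Pool.Agent.Work.MP_f0c219_gt_h82.TopoT1

/-!
# Block T, part T2: the gluing system
-/

open Set Topology
open scoped ComplexConjugate

namespace Pool.Agent.Work.MP_f0c219_gt.Model

open Borromean

/-- The collar of the glued cusp at infinity. -/
def Xc : Set Xs := {x | 8 < x.1.1.1.2}

theorem continuous_height : Continuous (fun x : Xs => x.1.1.1.2) :=
  continuous_snd.comp (continuous_subtype_val.comp (continuous_subtype_val.comp continuous_fst))

theorem continuous_zcoord : Continuous (fun x : Xs => x.1.1.1.1) :=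
  continuous_fst.comp (continuous_subtype_val.comp (continuous_subtype_val.comp continuous_fst))

theorem isOpen_Xc : IsOpen Xc := isOpen_lt continuous_const continuous_height

theorem mem_VPset_of_height {q : H3} (h : 1 < q.1.2) : q ∈ VPset := by
  intro γ hγ
  have h1 := height_of_c_ne_zero (γ := γ⁻¹) hγ.inv_c q
  rw [map_inv] at h1
  have : 0 < ((toC γ)⁻¹ • q).1.2 := ((toC γ)⁻¹ • q).2
  nlinarith

/-- A point of the collar. -/
def mkX (z : ℂ) (t r : ℝ) (h : 1 < t) : Xs :=
  (⟨⟨(z, t), one_pos.trans h⟩, mem_VPset_of_height (q := ⟨(z, t), one_pos.trans h⟩) h⟩, r)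

theorem Xs_ext {x y : Xs} (h1 : x.1.1.1.1 = y.1.1.1.1) (h2 : x.1.1.1.2 = y.1.1.1.2)
    (h3 : x.2 = y.2) : x = y :=
  Prod.ext (Subtype.ext (Subtype.ext (Prod.ext h1 h2))) h3

/-- The orientation reversing identification of the collars. -/
noncomputable def flipH (t : ℝ) : ℝ := 8 + 64 / max (t - 8) 0

theorem one_lt_flipH (t : ℝ) : 1 < flipH t := by
  unfold flipH
  have : 0 ≤ 64 / max (t - 8) 0 := div_nonneg (by norm_num) (le_max_right _ _)
  linarith

theorem flipH_of_lt {t : ℝ} (h : 8 < t) : flipH t = 8 + 64 / (t - 8) := by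
  unfold flipH
  rw [max_eq_left (by linarith)]

theorem lt_flipH {t : ℝ} (h : 8 < t) : 8 < flipH t := by
  rw [flipH_of_lt h]
  have : 0 < 64 / (t - 8) := div_pos (by norm_num) (by linarith)
  linarith

theorem flipH_flipH {t : ℝ} (h : 8 < t) : flipH (flipH t) = t := by
  rw [flipH_of_lt (lt_flipH h), flipH_of_lt h]
  have : t - 8 ≠ 0 := by linarith
  field_simp
  ring

theorem flipH_sixteen : flipH 16 = 16 := by
  rw [flipH_of_lt (by norm_num)]
  norm_num

/-- The gluing of the collars. -/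
noncomputable def phiFun (L : (ℂ × ℝ) ≃ₗ[ℝ] (ℂ × ℝ)) (x : Xs) : Xs :=
  mkX (16 * (L (x.1.1.1.1 / 16, x.2)).1) (flipH x.1.1.1.2) (L (x.1.1.1.1 / 16, x.2)).2
    (one_lt_flipH _)

theorem continuous_L (L : (ℂ × ℝ) ≃ₗ[ℝ] (ℂ × ℝ)) : Continuous L :=
  LinearMap.continuous_of_finiteDimensional L.toLinearMap

theorem continuousOn_phiFun (L : (ℂ × ℝ) ≃ₗ[ℝ] (ℂ × ℝ)) : ContinuousOn (phiFun L) Xc := by
  have c1 : Continuous (fun x : Xs => (x.1.1.1.1 / 16, x.2)) :=
    (continuous_zcoord.div_const 16).prodMk continuous_snd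
  have c2 : Continuous (fun x : Xs => L (x.1.1.1.1 / 16, x.2)) := (continuous_L L).comp c1
  have c3 : ContinuousOn (fun x : Xs => flipH x.1.1.1.2) Xc := by
    unfold flipH
    refine continuousOn_const.add (continuousOn_const.div ?_ ?_)
    · exact ((continuous_height.sub continuous_const).max continuous_const).continuousOn
    · intro x hx
      have h : 8 < x.1.1.1.2 := hx
      rw [max_eq_left (by linarith)]
      linarith
  rw [continuousOn_iff_continuous_domRestrict] at c3 ⊢
  refine Continuous.prodMk ?_ ((continuous_snd.comp c2).comp continuous_subtype_val)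
  refine Continuous.subtype_mk ?_ _
  refine Continuous.subtype_mk ?_ _
  exact (continuous_const.mul ((continuous_fst.comp c2).comp continuous_subtype_val)).prodMk c3

theorem phiFun_mem {L : (ℂ × ℝ) ≃ₗ[ℝ] (ℂ × ℝ)} {x : Xs} (hx : x ∈ Xc) : phiFun L x ∈ Xc :=
  lt_flipH hx

theorem phiFun_symm {L : (ℂ × ℝ) ≃ₗ[ℝ] (ℂ × ℝ)} {x : Xs} (hx : x ∈ Xc) :
    phiFun L.symm (phiFun L x) = x := by
  have e : ((16 * (L (x.1.1.1.1 / 16, x.2)).1) / 16, (L (x.1.1.1.1 / 16, x.2)).2) =
      L (x.1.1.1.1 / 16, x.2) := by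
    apply Prod.ext
    · change (16 * (L (x.1.1.1.1 / 16, x.2)).1) / 16 = _
      ring
    · rfl
  apply Xs_ext
  · change 16 * (L.symm ((16 * (L (x.1.1.1.1 / 16, x.2)).1) / 16,
      (L (x.1.1.1.1 / 16, x.2)).2)).1 = _
    rw [e, LinearEquiv.symm_apply_apply]
    change 16 * (x.1.1.1.1 / 16) = _
    ring
  · change flipH (flipH x.1.1.1.2) = _
    exact flipH_flipH hx
  · change (L.symm ((16 * (L (x.1.1.1.1 / 16, x.2)).1) / 16,
      (L (x.1.1.1.1 / 16, x.2)).2)).2 = _
    rw [e, LinearEquiv.symm_apply_apply]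

/-- The identification of the collars, as a partial homeomorphism. -/
noncomputable def phiHom (L : (ℂ × ℝ) ≃ₗ[ℝ] (ℂ × ℝ)) : OpenPartialHomeomorph Xs Xs where
  toFun := phiFun L
  invFun := phiFun L.symm
  source := Xc
  target := Xc
  map_source' _ := phiFun_mem
  map_target' _ := phiFun_mem
  left_inv' _ := phiFun_symm
  right_inv' x hx := by
    have := phiFun_symm (L := L.symm) hx
    rwa [LinearEquiv.symm_symm] at this
  open_source := isOpen_Xc
  open_target := isOpen_Xc
  continuousOn_toFun := continuousOn_phiFun L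
  continuousOn_invFun := continuousOn_phiFun L.symm

/-! ### Peripheral elements -/

theorem per_fst (v : Multiplicative Z3) : ((per v).1.1 : Equiv.Perm H3) =
    trPerm (Multiplicative.ofAdd ((v.toAdd.1 : ℂ) * mu + (v.toAdd.2.1 : ℂ) * lam)) := rfl

theorem per_snd (v : Multiplicative Z3) : (per v).2.toAdd = v.toAdd.2.2 := rfl

theorem trPerm_apply (w : ℂ) (q : H3) : trPerm (Multiplicative.ofAdd w) q = translate w q := rfl

theorem per_smul_z (v : Multiplicative Z3) (x : Xs) : (per v • x).1.1.1.1 =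
    x.1.1.1.1 + ((v.toAdd.1 : ℂ) * mu + (v.toAdd.2.1 : ℂ) * lam) := rfl

theorem per_smul_height (v : Multiplicative Z3) (x : Xs) :
    (per v • x).1.1.1.2 = x.1.1.1.2 := rfl

theorem per_smul_snd (v : Multiplicative Z3) (x : Xs) : (per v • x).2 = x.2 + (v.toAdd.2.2 : ℝ) :=
  rfl

theorem Tr_perm (m n : ℤ) (q : H3) : toC (Tr (m * ⟨1, 1⟩ + n * ⟨-2, 2⟩)) • q =
    translate ((m : ℂ) * mu + (n : ℂ) * lam) q := by
  rw [Tr_smul]
  congr 1
  rw [map_add, map_mul, map_mul]
  simp only [GaussianInt.toComplex_def, Zsqrtd.re_intCast, Zsqrtd.im_intCast, mu, lam]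
  push_cast
  ring

theorem toC_neg_smul (g : SL2Gi) (q : H3) : toC (-g) • q = toC g • q := by
  have h : toC (-g) = (-1 : SL2C) * toC g := by
    apply Subtype.ext
    apply Matrix.ext
    intro i j
    have e1 : (toC (-g)) i j = -(toC g i j) := by
      rw [toC_entry, toC_entry, neg_entries, map_neg]
    have e2 : ((-1 : SL2C) * toC g) = -(toC g) := by
      rw [neg_mul, one_mul]
    rw [e2]
    exact e1
  rw [h, mul_smul, neg_one_smul_H3]

/-- Precise invariance of the collar. -/
theorem exists_per (a : VG) {x : Xs} (hx : x ∈ Xc) (hax : a • x ∈ Xc) : ∃ v, per v = a := by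
  obtain ⟨g, hg, hσ⟩ := mem_PG.1 a.1.2
  have h1 : 8 < x.1.1.1.2 := hx
  have h2 : 8 < (toC g • x.1.1).1.2 := by
    rw [← hσ]
    exact hax
  have hc : g 1 0 = 0 := c_eq_zero_of_height (by linarith) (by linarith : 1 < (toC g • x.1.1).1.2)
  obtain ⟨m, n, h⟩ := stab_infinity hg hc
  refine ⟨Multiplicative.ofAdd (m, n, a.2.toAdd), ?_⟩
  have key : ∀ q, a.1.1 q = translate ((m : ℂ) * mu + (n : ℂ) * lam) q := by
    intro q
    rw [hσ]
    rcases h with h | h
    · rw [h, Tr_perm]
    · rw [h, toC_neg_smul, Tr_perm]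
  apply Prod.ext
  · apply Subtype.ext
    ext1 q
    rw [key]
    rfl
  · rfl

theorem isPathConnected_Xc : IsPathConnected Xc := by
  let C : Set ((ℂ × ℝ) × ℝ) := {p | 8 < p.1.2}
  have hC : Convex ℝ C := by
    intro p hp p' hp' a b ha hb hab
    change 8 < a * p.1.2 + b * p'.1.2
    have h1 : 8 < p.1.2 := hp
    have h2 : 8 < p'.1.2 := hp'
    rcases ha.lt_or_eq with h3 | h3
    · have h4 := mul_lt_mul_of_pos_left h1 h3
      have h5 := mul_le_mul_of_nonneg_left h2.le hb
      nlinarith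
    · have hb1 : b = 1 := by linarith
      rw [← h3, hb1]
      linarith
  have hne : C.Nonempty := ⟨((0, 9), 0), by change (8 : ℝ) < 9; norm_num⟩
  have h1 := hC.isPathConnected hne
  let f : (ℂ × ℝ) × ℝ → Xs := fun p =>
    (⟨⟨(p.1.1, max p.1.2 8), by positivity⟩, mem_VPset_of_height (lt_of_lt_of_le (by norm_num)
      (le_max_right _ _))⟩, p.2)
  have hf : Continuous f := by
    refine Continuous.prodMk ?_ continuous_snd
    refine Continuous.subtype_mk ?_ _
    refine Continuous.subtype_mk ?_ _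
    fun_prop
  have h2 := h1.image hf
  have h3 : f '' C = Xc := by
    ext x
    constructor
    · rintro ⟨p, hp, rfl⟩
      have hp' : 8 < p.1.2 := hp
      exact lt_of_lt_of_le hp' (le_max_left _ _)
    · intro hx
      have hx' : 8 < x.1.1.1.2 := hx
      refine ⟨((x.1.1.1.1, x.1.1.1.2), x.2), hx, ?_⟩
      apply Xs_ext
      · rfl
      · exact max_eq_left hx'.le
      · rfl
  rwa [h3] at h2

/-- The gluing system of an affine gluing. -/
noncomputable def LatIso.sys (e : LatIso) : GlueSys VG VG (Multiplicative Z3) Xs Xs where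
  i := per
  j := per.comp (AddMonoidHom.toMultiplicative e.E.toAddMonoidHom)
  φ := phiHom e.L
  i_smul h x hx := by
    change 8 < (per h • x).1.1.1.2
    rw [per_smul_height]
    exact hx
  j_smul h x hx := by
    change phiFun e.L (per h • x) =
      per (Multiplicative.ofAdd (e.E (Multiplicative.toAdd h))) • phiFun e.L x
    have e1 : (((per h • x).1.1.1.1 / 16, (per h • x).2) : ℂ × ℝ) =
        (x.1.1.1.1 / 16, x.2) + ev (Multiplicative.toAdd h) := by
      rw [ev_apply, per_smul_z, per_smul_snd]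
      apply Prod.ext
      · change _ = x.1.1.1.1 / 16 + _
        ring
      · rfl
    have e2 : e.L ((per h • x).1.1.1.1 / 16, (per h • x).2) =
        e.L (x.1.1.1.1 / 16, x.2) + ev (e.E (Multiplicative.toAdd h)) := by
      rw [e1, map_add, e.comm]
    apply Xs_ext
    · rw [per_smul_z]
      change 16 * (e.L ((per h • x).1.1.1.1 / 16, (per h • x).2)).1 =
        16 * (e.L (x.1.1.1.1 / 16, x.2)).1 + _
      rw [e2, ev_apply]
      change 16 * ((e.L (x.1.1.1.1 / 16, x.2)).1 + _ / 16) = _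
      simp only [toAdd_ofAdd]
      ring
    · rfl
    · rw [per_smul_snd]
      change (e.L ((per h • x).1.1.1.1 / 16, (per h • x).2)).2 =
        (e.L (x.1.1.1.1 / 16, x.2)).2 + _
      rw [e2]
      rfl
  precA a x hx hax := exists_per a hx hax
  precB b y hy hby := by
    obtain ⟨v, hv⟩ := exists_per b hy hby
    refine ⟨Multiplicative.ofAdd (e.E.symm (Multiplicative.toAdd v)), ?_⟩
    rw [← hv]
    change per (Multiplicative.ofAdd (e.E (e.E.symm (Multiplicative.toAdd v)))) = per v
    rw [AddEquiv.apply_symm_apply]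
    rfl

theorem LatIso.sys_edge (e : LatIso) : e.sys.edge = e.phi := rfl

end Pool.Agent.Work.MP_f0c219_gt.Model
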