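import Pool.Agent.Work.MP_f0c219_gt_h82.TopoT2

/-!
# Block T, part T4: the glued manifold is homeomorphic to the glued space of the system
-/

open Set Topology
open scoped ComplexConjugate

namespace Pool.Agent.Work.MP_f0c219_gt.Model

open Borromean GlueSys

/-! ### The core -/

/-- The truncated part of `Xs`. -/
def CoreX : Set Xs := {x | ∀ γ : SL2Gi, ((toC γ)⁻¹ • x.1.1).1.2 ≤ 16}

theorem mem_core_iff {q : H3} : (∀ h ∈ Bor.cusps, q ∉ horoball h) ↔
    ∀ γ : SL2Gi, ((toC γ)⁻¹ • q).1.2 ≤ 16 := by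
  constructor
  · intro h γ
    have h1 := h _ (mem_cusps.2 ⟨γ, rfl⟩)
    rwa [mem_horoball_iff, not_lt] at h1
  · intro h h' hh
    obtain ⟨γ, rfl⟩ := mem_cusps.1 hh
    rw [mem_horoball_iff, not_lt]
    exact h γ

/-- The inclusion of the core. -/
def iota (p : Bor.Core × ℝ) : Xs := (⟨p.1.1, fun γ _ => mem_core_iff.1 p.1.2 γ⟩, p.2)

theorem continuous_iota : Continuous iota := by
  refine Continuous.prodMk ?_ continuous_snd
  exact Continuous.subtype_mk (continuous_subtype_val.comp continuous_fst) _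

theorem iota_mem (p : Bor.Core × ℝ) : iota p ∈ CoreX := fun γ => mem_core_iff.1 p.1.2 γ

/-- Points of the truncated part come from the core. -/
def kap (x : CoreX) : Bor.Core × ℝ := (⟨x.1.1.1, mem_core_iff.2 x.2⟩, x.1.2)

theorem continuous_H3coord : Continuous (fun x : Xs => x.1.1) :=
  continuous_subtype_val.comp continuous_fst

theorem continuous_Rcoord : Continuous (fun x : Xs => x.2) := continuous_snd

theorem continuous_kap : Continuous kap := by
  have h1 : Continuous (fun x : CoreX => (x : Xs)) := continuous_subtype_val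
  refine Continuous.prodMk ?_ (continuous_Rcoord.comp h1)
  exact Continuous.subtype_mk (continuous_H3coord.comp h1) _

theorem iota_kap (x : CoreX) : iota (kap x) = x.1 := rfl

theorem mem_CoreX_of_le {x : Xs} (h1 : 1 < x.1.1.1.2) (h2 : x.1.1.1.2 ≤ 16) : x ∈ CoreX := by
  intro γ
  by_cases hc : γ⁻¹ 1 0 = 0
  · have := height_of_c_eq_zero hc x.1.1
    rw [map_inv] at this
    rw [this]
    exact h2
  · have h3 := height_of_c_ne_zero hc x.1.1
    rw [map_inv] at h3
    have : 0 < ((toC γ)⁻¹ • x.1.1).1.2 := ((toC γ)⁻¹ • x.1.1).2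
    nlinarith

theorem height_of_mem_CoreX {x : Xs} (h : x ∈ CoreX) : x.1.1.1.2 ≤ 16 := by
  have := h 1
  rwa [map_one, inv_one, one_smul] at this

theorem smul_mem_CoreX {x : Xs} (a : VG) (h : x ∈ CoreX) : a • x ∈ CoreX := by
  intro γ
  obtain ⟨g, hg, hσ⟩ := mem_PG.1 a.1.2
  rw [smul_fst, hσ, ← mul_smul]
  have := h (g⁻¹ * γ)
  rwa [map_mul, mul_inv_rev, map_inv, inv_inv] at this

/-- The element of `VG` given by an element of the group. -/
noncomputable def elt (g : SL2Gi) (hg : InGam g) : VG :=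
  (⟨MulAction.toPermHom SL2C H3 (toC g), mem_PG.2 ⟨g, hg, fun _ => rfl⟩⟩, 1)

theorem elt_smul {g : SL2Gi} (hg : InGam g) (x : Xs) : (elt g hg • x).1.1 = toC g • x.1.1 := rfl

/-- Every point is in the core, up to translation a point high up in the glued cusp. -/
theorem mem_CoreX_or (x : Xs) : x ∈ CoreX ∨ ∃ a : VG, 16 < (a • x).1.1.1.2 := by
  by_cases h : x ∈ CoreX
  · exact Or.inl h
  · right
    unfold CoreX at h
    rw [Set.mem_ofPred_eq] at h
    push Not at h
    obtain ⟨γ, hγ⟩ := h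
    have h1 : ¬ Unglued γ := fun h2 => absurd (x.1.2 γ h2) (not_le.2 hγ)
    unfold Unglued at h1
    push Not at h1
    obtain ⟨g, hg, hc⟩ := h1
    refine ⟨elt g⁻¹ (inGam_inv hg), ?_⟩
    rw [elt_smul, map_inv]
    have h2 : (toC γ)⁻¹ • x.1.1 = toC (γ⁻¹ * g) • ((toC g)⁻¹ • x.1.1) := by
      rw [← mul_smul, map_mul, map_inv, mul_assoc, mul_inv_cancel, mul_one]
    rw [h2, height_of_c_eq_zero hc] at hγ
    exact hγ

/-! ### The quotient map onto the piece -/

/-- The quotient map. -/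
noncomputable def piMap (p : Bor.Core × ℝ) : Bor.Piece :=
  (Quotient.mk Bor.coreSetoid p.1, (p.2 : AddCircle (1 : ℝ)))

theorem isOpenQuotientMap_core : IsOpenQuotientMap (Quotient.mk Bor.coreSetoid) := by
  refine ⟨Quotient.exists_rep, continuous_quotient_mk', ?_⟩
  intro U hU
  have h1 : IsOpen (Quotient.mk Bor.coreSetoid ⁻¹' (Quotient.mk Bor.coreSetoid '' U)) := by
    obtain ⟨W, hW, rfl⟩ := isOpen_induced_iff.1 hU
    have : Quotient.mk Bor.coreSetoid ⁻¹' (Quotient.mk Bor.coreSetoid '' (Subtype.val ⁻¹' W)) =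
        ⋃ g ∈ Bor.Γ, {y : Bor.Core | g • y.1 ∈ W} := by
      ext y
      simp only [mem_preimage, mem_image, mem_iUnion, exists_prop]
      constructor
      · rintro ⟨x, hx, hxy⟩
        obtain ⟨g, hg, h⟩ := Quotient.exact hxy.symm
        exact ⟨g, hg, by
          change g • y.1 ∈ W
          rw [h]
          exact hx⟩
      · rintro ⟨g, hg, h⟩
        have hc : ∀ h ∈ Bor.cusps, g • y.1 ∉ horoball h := by
          intro h hh hmem
          obtain ⟨r, hr, hgr⟩ := hmem
          refine y.2 (g⁻¹ * h) (Bor.invariant _ (Bor.Γ.inv_mem hg) _ hh) ⟨r, hr, ?_⟩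
          simp only at hgr ⊢
          rw [mul_smul, hgr, inv_smul_smul]
        exact ⟨⟨g • y.1, hc⟩, h, Quotient.sound (s := Bor.coreSetoid)
          ⟨g⁻¹, Bor.Γ.inv_mem hg, by rw [inv_smul_smul]⟩⟩
    rw [this]
    refine isOpen_biUnion fun g _ => ?_
    exact hW.preimage ((continuous_smul g).comp continuous_subtype_val)
  exact h1

theorem isOpenQuotientMap_circle :
    IsOpenQuotientMap (fun r : ℝ => (r : AddCircle (1 : ℝ))) :=
  QuotientAddGroup.isOpenQuotientMap_mk

theorem isOpenQuotientMap_piMap : IsOpenQuotientMap piMap :=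
  isOpenQuotientMap_core.prodMap isOpenQuotientMap_circle

theorem piMap_eq_iff {p p' : Bor.Core × ℝ} : piMap p = piMap p' ↔ ∃ a : VG, iota p' = a • iota p := by
  constructor
  · intro h
    obtain ⟨g, hg, h1⟩ := Quotient.exact (congrArg Prod.fst h)
    have h2 : (p'.2 : AddCircle (1 : ℝ)) = p.2 := (congrArg Prod.snd h).symm
    rw [← sub_eq_zero, ← AddCircle.coe_sub, AddCircle.coe_eq_zero_iff] at h2
    obtain ⟨n, hn⟩ := h2
    refine ⟨(⟨MulAction.toPermHom SL2C H3 g, ⟨g, hg, rfl⟩⟩, Multiplicative.ofAdd n), ?_⟩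
    apply Prod.ext
    · exact Subtype.ext h1.symm
    · change p'.2 = p.2 + ((n : ℤ) : ℝ)
      rw [zsmul_eq_mul, mul_one] at hn
      linarith
  · rintro ⟨a, ha⟩
    apply Prod.ext
    · refine Quotient.sound (s := Bor.coreSetoid) ?_
      obtain ⟨g, hg, h⟩ := a.1.2
      refine ⟨g, hg, ?_⟩
      have h1 := congrArg (fun x : Xs => x.1.1) ha
      change p'.1.1 = a.1.1 p.1.1 at h1
      rw [h1, ← h]
      rfl
    · have h1 : p'.2 = p.2 + (a.2.toAdd : ℝ) := congrArg Prod.snd ha
      change (p.2 : AddCircle (1 : ℝ)) = p'.2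
      rw [h1, eq_comm, ← sub_eq_zero, ← AddCircle.coe_sub, AddCircle.coe_eq_zero_iff]
      exact ⟨a.2.toAdd, by simp⟩

/-! ### The map from the glued manifold -/

variable (e : LatIso)

/-- The quotient map as a continuous map. -/
noncomputable def piC : C(Bor.Core × ℝ, Bor.Piece) := ⟨piMap, isOpenQuotientMap_piMap.continuous⟩

theorem isQuotientMap_piC : IsQuotientMap piC := isOpenQuotientMap_piMap.isQuotientMap

/-- The map on the first piece. -/
noncomputable def fV : C(Bor.Piece, Q e.sys) :=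
  isQuotientMap_piC.lift ⟨fun p => qX e.sys (iota p),
    continuous_qX.comp continuous_iota⟩ fun _ _ h => qX_eq_qX.2 (piMap_eq_iff.1 h)

/-- The map on the second piece. -/
noncomputable def fW : C(Bor.Piece, Q e.sys) :=
  isQuotientMap_piC.lift ⟨fun p => qY e.sys (iota p),
    continuous_qY.comp continuous_iota⟩ fun _ _ h => qY_eq_qY.2 (piMap_eq_iff.1 h)

theorem fV_piMap (p : Bor.Core × ℝ) : fV e (piMap p) = qX e.sys (iota p) :=
  DFunLike.congr_fun (isQuotientMap_piC.lift_comp ⟨fun p => qX e.sys (iota p),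
    continuous_qX.comp continuous_iota⟩ fun _ _ h => qX_eq_qX.2 (piMap_eq_iff.1 h)) p

theorem fW_piMap (p : Bor.Core × ℝ) : fW e (piMap p) = qY e.sys (iota p) :=
  DFunLike.congr_fun (isQuotientMap_piC.lift_comp ⟨fun p => qY e.sys (iota p),
    continuous_qY.comp continuous_iota⟩ fun _ _ h => qY_eq_qY.2 (piMap_eq_iff.1 h)) p

theorem D4_pt (z : ℂ) : (D4 • pt z 1 one_pos).1.1 = 16 * z ∧ (D4 • pt z 1 one_pos).1.2 = 16 := by
  refine ⟨(D4_smul _).1, ?_⟩
  rw [(D4_smul _).2]
  change (16 : ℝ) * 1 = 16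
  norm_num

/-- The map from the glued manifold to the glued space. -/
noncomputable def fS : e.toGluing.Space → Q e.sys :=
  Quot.lift (Sum.elim (fV e) (fW e)) (by
    rintro x y ⟨p, v, w, ⟨y, hy, rfl⟩, ⟨y', hy', rfl⟩, rfl, rfl⟩
    change fV e (piMap (y, p.2)) = fW e (piMap (y', (e.L p).2))
    rw [fV_piMap, fW_piMap]
    have hy1 : y.1 = D4 • pt p.1 1 one_pos := hy
    have hy1' : y'.1 = D4 • pt (e.L p).1 1 one_pos := hy'
    have h1 : iota (y, p.2) ∈ Xc := by
      change 8 < y.1.1.2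
      rw [hy1, (D4_pt _).2]
      norm_num
    have h2 : phiFun e.L (iota (y, p.2)) = iota (y', (e.L p).2) := by
      have e1 : ((y.1.1.1 / 16, p.2) : ℂ × ℝ) = p := by
        apply Prod.ext
        · change y.1.1.1 / 16 = p.1
          rw [hy1, (D4_pt _).1]
          ring
        · rfl
      apply Xs_ext
      · change 16 * (e.L (y.1.1.1 / 16, p.2)).1 = y'.1.1.1
        rw [e1, hy1', (D4_pt _).1]
      · change flipH y.1.1.2 = y'.1.1.2
        rw [hy1, hy1', (D4_pt _).2, (D4_pt _).2, flipH_sixteen]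
      · change (e.L (y.1.1.1 / 16, p.2)).2 = (e.L p).2
        rw [e1]
    have h3 := qX_eq_qY_source e.sys (x := iota (y, p.2)) h1
    rw [h3]
    exact congrArg (qY e.sys) h2)

theorem continuous_fS : Continuous (fS e) :=
  continuous_quot_lift _ (continuous_sum_dom.2 ⟨(fV e).continuous, (fW e).continuous⟩)

/-- The first piece in the glued manifold. -/
def mV (v : Bor.Piece) : e.toGluing.Space := Quot.mk _ (Sum.inl v)

/-- The second piece in the glued manifold. -/
def mW (v : Bor.Piece) : e.toGluing.Space := Quot.mk _ (Sum.inr v)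

theorem continuous_mV : Continuous (mV e) := continuous_quot_mk.comp continuous_inl

theorem continuous_mW : Continuous (mW e) := continuous_quot_mk.comp continuous_inr

theorem fS_mV (p : Bor.Core × ℝ) : fS e (mV e (piMap p)) = qX e.sys (iota p) := fV_piMap e p

theorem fS_mW (p : Bor.Core × ℝ) : fS e (mW e (piMap p)) = qY e.sys (iota p) := fW_piMap e p

theorem space_cases (s : e.toGluing.Space) : (∃ p, s = mV e (piMap p)) ∨ ∃ p, s = mW e (piMap p) := by
  obtain ⟨s, rfl⟩ := Quot.exists_rep s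
  rcases s with v | v
  · obtain ⟨p, rfl⟩ := isOpenQuotientMap_piMap.surjective v
    exact Or.inl ⟨p, rfl⟩
  · obtain ⟨p, rfl⟩ := isOpenQuotientMap_piMap.surjective v
    exact Or.inr ⟨p, rfl⟩

theorem lt_flipH_le {t : ℝ} (h : 16 < t) : flipH t ≤ 16 := by
  rw [flipH_of_lt (by linarith)]
  have : 64 / (t - 8) ≤ 8 := by
    rw [div_le_iff₀ (by linarith)]
    linarith
  linarith

theorem surjective_fS : Function.Surjective (fS e) := by
  intro s
  rcases tot_cases (triv e.sys) s with ⟨g, x, rfl⟩ | ⟨g, y, rfl⟩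
  · change ∃ a, fS e a = qX e.sys x
    rcases mem_CoreX_or x with h | ⟨a, ha⟩
    · exact ⟨mV e (piMap (kap ⟨x, h⟩)), fS_mV e _⟩
    · have h1 : a • x ∈ Xc := by
        change 8 < (a • x).1.1.1.2
        linarith
      have h2 : phiFun e.L (a • x) ∈ CoreX :=
        mem_CoreX_of_le (one_lt_flipH _) (lt_flipH_le ha)
      refine ⟨mW e (piMap (kap ⟨_, h2⟩)), ?_⟩
      rw [fS_mW, iota_kap]
      exact (qX_eq_qY.2 ⟨a, 1, h1, by rw [one_smul]; rfl⟩).symm
  · change ∃ a, fS e a = qY e.sys y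
    rcases mem_CoreX_or y with h | ⟨a, ha⟩
    · exact ⟨mW e (piMap (kap ⟨y, h⟩)), fS_mW e _⟩
    · have h1 : a • y ∈ Xc := by
        change 8 < (a • y).1.1.1.2
        linarith
      have h2 : phiFun e.L.symm (a • y) ∈ CoreX :=
        mem_CoreX_of_le (one_lt_flipH _) (lt_flipH_le ha)
      refine ⟨mV e (piMap (kap ⟨_, h2⟩)), ?_⟩
      rw [fS_mV, iota_kap]
      refine qX_eq_qY.2 ⟨1, a, ?_, ?_⟩
      · rw [one_smul]
        exact phiFun_mem h1
      · rw [one_smul]
        exact (phiHom e.L).right_inv h1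

theorem injective_fS : Function.Injective (fS e) := by
  have key : ∀ p p', qX e.sys (iota p) = qY e.sys (iota p') →
      mV e (piMap p) = mW e (piMap p') := by
    intro p p' h
    obtain ⟨a, b, h1, h2⟩ := qX_eq_qY.1 h
    have hx : a • iota p ∈ CoreX := smul_mem_CoreX a (iota_mem p)
    have hy : b • iota p' ∈ CoreX := smul_mem_CoreX b (iota_mem p')
    have e1 : piMap (kap ⟨_, hx⟩) = piMap p := (piMap_eq_iff.2 ⟨a, rfl⟩).symm
    have e2 : piMap (kap ⟨_, hy⟩) = piMap p' := (piMap_eq_iff.2 ⟨b, rfl⟩).symm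
    rw [← e1, ← e2]
    have ht : (a • iota p).1.1.1.2 ≤ 16 := height_of_mem_CoreX hx
    have ht' : (b • iota p').1.1.1.2 ≤ 16 := height_of_mem_CoreX hy
    have ht8 : 8 < (a • iota p).1.1.1.2 := h1
    have h3 : phiFun e.L (a • iota p) = b • iota p' := h2
    have hflip : flipH (a • iota p).1.1.1.2 = (b • iota p').1.1.1.2 := by
      rw [← h3]
      rfl
    have h16 : (a • iota p).1.1.1.2 = 16 := by
      refine le_antisymm ht ?_
      rw [← hflip, flipH_of_lt ht8] at ht'
      by_contra hlt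
      push Not at hlt
      have h4 : 8 < 64 / ((a • iota p).1.1.1.2 - 8) := by
        rw [lt_div_iff₀ (by linarith)]
        linarith
      linarith
    have h16' : (b • iota p').1.1.1.2 = 16 := by rw [← hflip, h16, flipH_sixteen]
    refine Quot.sound ⟨((a • iota p).1.1.1.1 / 16, (a • iota p).2), _, _, ?_, ?_, rfl, rfl⟩
    · refine ⟨(kap ⟨_, hx⟩).1, ?_, rfl⟩
      apply Subtype.ext
      apply Prod.ext
      · change (a • iota p).1.1.1.1 = (D4 • pt _ 1 one_pos).1.1
        rw [(D4_pt _).1]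
        ring
      · change (a • iota p).1.1.1.2 = (D4 • pt _ 1 one_pos).1.2
        rw [(D4_pt _).2, h16]
    · refine ⟨(kap ⟨_, hy⟩).1, ?_, ?_⟩
      · apply Subtype.ext
        apply Prod.ext
        · change (b • iota p').1.1.1.1 = (D4 • pt _ 1 one_pos).1.1
          rw [(D4_pt _).1, ← h3]
          rfl
        · change (b • iota p').1.1.1.2 = (D4 • pt _ 1 one_pos).1.2
          rw [(D4_pt _).2, h16']
      · change (_, ((b • iota p').2 : AddCircle (1 : ℝ))) = _
        apply Prod.ext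
        · rfl
        · change ((b • iota p').2 : AddCircle (1 : ℝ)) =
            ((e.L ((a • iota p).1.1.1.1 / 16, (a • iota p).2)).2 : AddCircle (1 : ℝ))
          rw [← h3]
          rfl
  intro s s' h
  rcases space_cases e s with ⟨p, rfl⟩ | ⟨p, rfl⟩ <;>
  rcases space_cases e s' with ⟨p', rfl⟩ | ⟨p', rfl⟩
  · rw [fS_mV, fS_mV] at h
    rw [piMap_eq_iff.2 (qX_eq_qX.1 h)]
  · rw [fS_mV, fS_mW] at h
    exact key _ _ h
  · rw [fS_mV, fS_mW] at h
    exact (key _ _ h.symm).symm
  · rw [fS_mW, fS_mW] at h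
    rw [piMap_eq_iff.2 (qY_eq_qY.1 h)]

/-! ### Continuity of the inverse -/

theorem CoreX_mem_nhds {x : Xs} (h : ∀ a : VG, (a • x).1.1.1.2 < 16) : CoreX ∈ 𝓝 x := by
  have c0 : Continuous (fun y : Xs => y.1.1) := continuous_subtype_val.comp continuous_fst
  have hglued : ∀ γ : SL2Gi, ¬ Unglued γ → ((toC γ)⁻¹ • x.1.1).1.2 < 16 := by
    intro γ h1
    unfold Unglued at h1
    push Not at h1
    obtain ⟨g, hg, hc⟩ := h1
    have h2 : (toC γ)⁻¹ • x.1.1 = toC (γ⁻¹ * g) • ((toC g)⁻¹ • x.1.1) := by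
      rw [← mul_smul, map_mul, map_inv, mul_assoc, mul_inv_cancel, mul_one]
    rw [h2, height_of_c_eq_zero hc]
    have := h (elt g⁻¹ (inGam_inv hg))
    rwa [elt_smul, map_inv] at this
  by_cases h1 : ∃ γ₀, ¬ Unglued γ₀ ∧ 1 < ((toC γ₀)⁻¹ • x.1.1).1.2
  · obtain ⟨γ₀, hγ₀, h2⟩ := h1
    have c1 : Continuous (fun y : Xs => ((toC γ₀)⁻¹ • y.1.1).1.2) :=
      (continuous_snd.comp continuous_subtype_val).comp ((continuous_smul _).comp c0)
    have h3 : ∀ᶠ y : Xs in 𝓝 x, 1 < ((toC γ₀)⁻¹ • y.1.1).1.2 :=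
      (isOpen_lt continuous_const c1).mem_nhds h2
    have h4 : ∀ᶠ y : Xs in 𝓝 x, ((toC γ₀)⁻¹ • y.1.1).1.2 < 16 :=
      (isOpen_lt c1 continuous_const).mem_nhds (hglued γ₀ hγ₀)
    filter_upwards [h3, h4] with y h5 h6 γ
    by_contra h7
    push Not at h7
    have hc := eq_cusp (γ := γ) (γ' := γ₀) (q := y.1.1) (by linarith) h5
    have h8 : (toC γ)⁻¹ • y.1.1 = toC (γ⁻¹ * γ₀) • ((toC γ₀)⁻¹ • y.1.1) := by
      rw [← mul_smul, map_mul, map_inv, mul_assoc, mul_inv_cancel, mul_one]
    rw [h8, height_of_c_eq_zero hc] at h7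
    linarith
  · push Not at h1
    have h2 : ∀ᶠ y : Xs in 𝓝 x, ∀ g : SL2C, (g • y.1.1).1.2 ≤ 12 * (g • x.1.1).1.2 :=
      c0.continuousAt.eventually (eventually_height_le x.1.1)
    filter_upwards [h2] with y h3 γ
    by_cases hγ : Unglued γ
    · exact y.1.2 γ hγ
    · have h4 := h3 (toC γ)⁻¹
      have h5 := h1 γ hγ
      linarith

/-- A map on `Xs` which is continuous on the core, invariant, and given on the collar by a map on
the other side that is continuous on the core, is continuous. -/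
theorem continuous_of_core {M : Type*} [TopologicalSpace M] {gX gY : Xs → M}
    (hX : ContinuousOn gX CoreX) (hY : ContinuousOn gY CoreX) (L : (ℂ × ℝ) ≃ₗ[ℝ] (ℂ × ℝ))
    (h : ∀ x ∈ Xc, gX x = gY (phiFun L x)) (hinv : ∀ (a : VG) (x : Xs), gX (a • x) = gX x) :
    Continuous gX := by
  have h1 : ∀ x : Xs, 16 ≤ x.1.1.1.2 → ContinuousAt gX x := by
    intro x hx
    have hcl1 : IsClosed {y : Xs | 12 ≤ y.1.1.1.2 ∧ y.1.1.1.2 ≤ 16} :=
      (isClosed_le continuous_const continuous_height).inter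
        (isClosed_le continuous_height continuous_const)
    have hcl2 : IsClosed {y : Xs | 16 ≤ y.1.1.1.2} :=
      isClosed_le continuous_const continuous_height
    have hc1 : ContinuousOn gX {y : Xs | 12 ≤ y.1.1.1.2 ∧ y.1.1.1.2 ≤ 16} :=
      hX.mono fun y hy => mem_CoreX_of_le (by linarith [hy.1]) hy.2
    have hc2 : ContinuousOn gX {y : Xs | 16 ≤ y.1.1.1.2} := by
      have hsub : {y : Xs | 16 ≤ y.1.1.1.2} ⊆ Xc := fun y hy => by
        have : 16 ≤ y.1.1.1.2 := hy
        change 8 < y.1.1.1.2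
        linarith
      have h2 : ContinuousOn (fun y => gY (phiFun L y)) {y : Xs | 16 ≤ y.1.1.1.2} := by
        refine hY.comp ((continuousOn_phiFun L).mono hsub) ?_
        intro y hy
        refine mem_CoreX_of_le (one_lt_flipH _) ?_
        change flipH y.1.1.1.2 ≤ 16
        have hy' : 16 ≤ y.1.1.1.2 := hy
        rcases hy'.lt_or_eq with h3 | h3
        · exact lt_flipH_le h3
        · rw [← h3, flipH_sixteen]
      exact h2.congr fun y hy => h y (hsub hy)
    have hc := hc1.union_of_isClosed hc2 hcl1 hcl2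
    refine hc.continuousAt ?_
    have h3 : {y : Xs | 12 < y.1.1.1.2} ∈ 𝓝 x :=
      (isOpen_lt continuous_const continuous_height).mem_nhds (by
        change 12 < x.1.1.1.2
        linarith)
    filter_upwards [h3] with y hy
    have hy' : 12 < y.1.1.1.2 := hy
    rcases le_total y.1.1.1.2 16 with h4 | h4
    · exact Or.inl ⟨hy'.le, h4⟩
    · exact Or.inr h4
  rw [continuous_iff_continuousAt]
  intro x
  by_cases h2 : ∃ a : VG, 16 ≤ (a • x).1.1.1.2
  · obtain ⟨a, ha⟩ := h2
    have h3 : gX = gX ∘ (fun y => a • y) := funext fun y => (hinv a y).symm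
    rw [h3]
    exact ContinuousAt.comp (h1 _ ha) (continuous_const_smul a).continuousAt
  · push Not at h2
    exact hX.continuousAt (CoreX_mem_nhds h2)

/-- T4 -/
theorem exists_homeo : Nonempty (e.toGluing.Space ≃ₜ Q e.sys) := by
  let E : e.toGluing.Space ≃ Q e.sys := Equiv.ofBijective (fS e) ⟨injective_fS e, surjective_fS e⟩
  have hX : ContinuousOn (fun x => E.symm (qX e.sys x)) CoreX := by
    rw [continuousOn_iff_continuous_domRestrict]
    have : CoreX.domRestrict (fun x => E.symm (qX e.sys x)) = fun x => mV e (piMap (kap x)) := by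
      ext1 x
      change E.symm (qX e.sys x.1) = _
      rw [Equiv.symm_apply_eq]
      exact (fS_mV e (kap x)).symm
    rw [this]
    exact (continuous_mV e).comp (isOpenQuotientMap_piMap.continuous.comp continuous_kap)
  have hY : ContinuousOn (fun x => E.symm (qY e.sys x)) CoreX := by
    rw [continuousOn_iff_continuous_domRestrict]
    have : CoreX.domRestrict (fun x => E.symm (qY e.sys x)) = fun x => mW e (piMap (kap x)) := by
      ext1 x
      change E.symm (qY e.sys x.1) = _
      rw [Equiv.symm_apply_eq]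
      exact (fS_mW e (kap x)).symm
    rw [this]
    exact (continuous_mW e).comp (isOpenQuotientMap_piMap.continuous.comp continuous_kap)
  have cX : Continuous (fun x => E.symm (qX e.sys x)) :=
    continuous_of_core hX hY e.L (fun x hx => congrArg E.symm (qX_eq_qY_source e.sys hx))
      fun a x => congrArg E.symm (q_smul (A := VG) (q := qX e.sys) (fun _ _ => qX_eq_qX) a x)
  have cY : Continuous (fun x => E.symm (qY e.sys x)) := by
    refine continuous_of_core hY hX e.L.symm (fun x hx => congrArg E.symm ?_)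
      fun a x => congrArg E.symm (q_smul (A := VG) (q := qY e.sys) (fun _ _ => qY_eq_qY) a x)
    have h1 : phiFun e.L.symm x ∈ Xc := phiFun_mem hx
    have h2 := qX_eq_qY_source e.sys (x := phiFun e.L.symm x) h1
    rw [h2]
    exact congrArg (qY e.sys) ((phiHom e.L).right_inv hx).symm
  refine ⟨{ toEquiv := E, continuous_toFun := continuous_fS e, continuous_invFun := ?_ }⟩
  refine ⟨fun V hV => ?_⟩
  rw [GlueSys.isOpen_iff]
  exact ⟨fun _ => hV.preimage cX, fun _ => hV.preimage cY⟩

end Pool.Agent.Work.MP_f0c219_gt.Model
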