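import Pool.Agent.Work.MP_f0c219_gt_h82.TopoT4

/-!
# Block T, part T5: the fundamental group of the glued manifold
-/

open Set Topology
open scoped ComplexConjugate

namespace Pool.Agent.Work.MP_f0c219_gt.Model

open Borromean GlueSys

/-- Fundamental groups of homeomorphic spaces. -/
theorem nonempty_mulEquiv_of_homeo {X Y : Type*} [TopologicalSpace X] [TopologicalSpace Y]
    (h : X ≃ₜ Y) (x : X) : Nonempty (FundamentalGroup X x ≃* FundamentalGroup Y (h x)) := by
  let F : C(X, Y) := ⟨h, h.continuous⟩
  refine ⟨MulEquiv.ofBijective (FundamentalGroup.map F x) ⟨?_, ?_⟩⟩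
  · intro p q hpq
    induction p using Path.Homotopic.Quotient.ind with | mk p => ?_
    induction q using Path.Homotopic.Quotient.ind with | mk q => ?_
    have h1 : (p.map h.continuous).Homotopic (q.map h.continuous) :=
      Path.Homotopic.Quotient.eq.1 hpq
    have h2 := h1.map ⟨h.symm, h.symm.continuous⟩
    have h3 := h2.pathCast (h.symm_apply_apply x).symm (h.symm_apply_apply x).symm
    have e : ∀ p : Path x x, ((p.map h.continuous).map
        (ContinuousMap.continuous ⟨h.symm, h.symm.continuous⟩)).cast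
        (h.symm_apply_apply x).symm (h.symm_apply_apply x).symm = p := by
      intro p
      ext t
      exact h.symm_apply_apply _
    rw [e, e] at h3
    exact Path.Homotopic.Quotient.eq.2 h3
  · intro r
    induction r using Path.Homotopic.Quotient.ind with | mk r => ?_
    refine ⟨FundamentalGroup.fromPath (.mk ((r.map h.symm.continuous).cast
      (h.symm_apply_apply x).symm (h.symm_apply_apply x).symm)), ?_⟩
    change Path.Homotopic.Quotient.mk _ = Path.Homotopic.Quotient.mk _
    congr 1
    ext t
    exact h.apply_symm_apply _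

theorem pathConnectedSpace_Q (e : LatIso) : PathConnectedSpace (Q e.sys) := by
  rw [pathConnectedSpace_iff_univ]
  have h1 : IsPathConnected (range (qX e.sys)) := isPathConnected_range continuous_qX
  have h2 : IsPathConnected (range (qY e.sys)) := isPathConnected_range continuous_qY
  have h3 : (range (qX e.sys) ∩ range (qY e.sys)).Nonempty := by
    have hx : mkX 0 9 0 (by norm_num) ∈ e.sys.φ.source := by
      change (8 : ℝ) < 9
      norm_num
    exact ⟨_, ⟨_, rfl⟩, ⟨_, (qX_eq_qY_source e.sys hx).symm⟩⟩
  have h4 := h1.union h2 h3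
  have h5 : range (qX e.sys) ∪ range (qY e.sys) = univ := by
    rw [eq_univ_iff_forall]
    intro s
    rcases tot_cases (triv e.sys) s with ⟨g, x, rfl⟩ | ⟨g, y, rfl⟩
    · exact Or.inl ⟨x, rfl⟩
    · exact Or.inr ⟨y, rfl⟩
  rwa [h5] at h4

/-- T5: the glued manifold is path connected and its fundamental group is the amalgamated
product. -/
theorem pi1 (e : LatIso) : PathConnectedSpace e.toGluing.Space ∧ ∀ p : e.toGluing.Space,
    Nonempty (FundamentalGroup e.toGluing.Space p ≃* (Monoid.PushoutI e.phi)ᵐᵒᵖ) := by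
  obtain ⟨h⟩ := exists_homeo.{0} e
  have hQ := pathConnectedSpace_Q.{0} e
  refine ⟨h.symm.surjective.pathConnectedSpace h.symm.continuous, fun p => ?_⟩
  have hx : mkX 0 9 0 (by norm_num) ∈ e.sys.φ.source := by
    change (8 : ℝ) < 9
    norm_num
  obtain ⟨E1⟩ := GlueSys.exists_mulEquiv e.sys hA_Xs hA_Xs isPathConnected_Xc hx
  obtain ⟨E2⟩ := nonempty_mulEquiv_of_homeo h p
  let E3 : FundamentalGroup (Q e.sys) (h p) ≃*
      FundamentalGroup (Q e.sys) (qX e.sys (mkX 0 9 0 (by norm_num))) :=
    FundamentalGroup.fundamentalGroupMulEquivOfPathConnected _ _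
  have E4 : (FundamentalGroup (Q e.sys) (qX e.sys (mkX 0 9 0 (by norm_num)))) ≃*
      (Monoid.PushoutI e.phi)ᵐᵒᵖ :=
    (MulEquiv.opOp _).trans (MulEquiv.op E1.symm)
  exact ⟨(E2.trans E3).trans E4⟩

end Pool.Agent.Work.MP_f0c219_gt.Model
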